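import Mathlib
import Pool.Agent.H2.Kneser

/-! Sumsets in cyclic groups: Kneser's theorem in terms of the quotients `ZMod d` of `ZMod h`. -/

set_option autoImplicit false

namespace Pool.Agent.H91RS

open Finset Pointwise Pool.Agent.H2.Kneser

/-- the fibres of `ZMod h → ZMod d` -/
theorem card_fib {h d : ℕ} [NeZero h] [NeZero d] (hd : d ∣ h) (K : Finset (ZMod h))
    (hK : ∀ x, x ∈ K ↔ ZMod.castHom hd (ZMod d) x = 0) (Y : Finset (ZMod d)) :
    #(univ.filter fun x : ZMod h => ZMod.castHom hd (ZMod d) x ∈ Y) = #Y * #K := by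
  classical
  rw [Finset.card_eq_sum_card_fiberwise (f := fun x => ZMod.castHom hd (ZMod d) x) (t := Y)
    (fun x hx => Finset.mem_coe.2 (mem_filter.1 (Finset.mem_coe.1 hx)).2),
    Finset.sum_const_nat (m := #K)]
  intro y hy
  obtain ⟨x0, hx0⟩ := ZMod.castHom_surjective hd y
  refine Finset.card_bij' (fun x _ => x - x0) (fun x _ => x + x0) ?_ ?_ ?_ ?_
  · intro x hx
    rw [hK, map_sub, hx0, (mem_filter.1 hx).2, sub_self]
  · intro x hx
    have h1 : ZMod.castHom hd (ZMod d) (x + x0) = y := by rw [map_add, (hK x).1 hx, hx0, zero_add]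
    exact mem_filter.2 ⟨mem_filter.2 ⟨mem_univ _, by
      change ZMod.castHom hd (ZMod d) (x + x0) ∈ Y
      rw [h1]; exact hy⟩, h1⟩
  · intro x _; abel
  · intro x _; abel

/-- subgroups of `ZMod h` -/
theorem sub_zmod (h : ℕ) [NeZero h] (K : Finset (ZMod h)) (hK : Sg K) :
    ∃ (d : ℕ) (hd : d ∣ h), 0 < d ∧ ∀ x : ZMod h, x ∈ K ↔ ZMod.castHom hd (ZMod d) x = 0 := by
  classical
  have hex : ∃ m : ℕ, 0 < m ∧ ((m : ℕ) : ZMod h) ∈ K :=
    ⟨h, Nat.pos_of_ne_zero (NeZero.ne h), by simpa using hK.zero⟩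
  obtain ⟨h1, h2⟩ := Nat.find_spec hex
  have hmin : ∀ m : ℕ, m < Nat.find hex → ¬ (0 < m ∧ ((m : ℕ) : ZMod h) ∈ K) :=
    fun m hm => Nat.find_min hex hm
  generalize Nat.find hex = d at h1 h2 hmin
  have hmul : ∀ q : ℕ, ((d * q : ℕ) : ZMod h) ∈ K := by
    intro q
    induction q with
    | zero => simpa using hK.zero
    | succ q ih =>
      have := hK.add ih h2
      have e : ((d * (q + 1) : ℕ) : ZMod h) = ((d * q : ℕ) : ZMod h) + ((d : ℕ) : ZMod h) := by
        push_cast; ring
      rw [e]; exact this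
  have key : ∀ n : ℕ, ((n : ℕ) : ZMod h) ∈ K ↔ d ∣ n := by
    intro n
    constructor
    · intro hn
      have h3 : ((n % d : ℕ) : ZMod h) ∈ K := by
        have h4 := hK.sub _ hn _ (hmul (n / d))
        have e : ((n : ℕ) : ZMod h) - ((d * (n / d) : ℕ) : ZMod h) = ((n % d : ℕ) : ZMod h) := by
          have := Nat.div_add_mod n d
          have h5 : ((n : ℕ) : ZMod h) = ((d * (n / d) + n % d : ℕ) : ZMod h) := by rw [this]
          rw [h5]; push_cast; ring
        rwa [e] at h4
      have h5 := hmin (n % d) (Nat.mod_lt _ h1)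
      have h6 : n % d = 0 := by
        by_contra h7
        exact h5 ⟨Nat.pos_of_ne_zero h7, h3⟩
      exact Nat.dvd_of_mod_eq_zero h6
    · rintro ⟨q, rfl⟩
      exact hmul q
  have hd : d ∣ h := (key h).1 (by simpa using hK.zero)
  refine ⟨d, hd, h1, fun x => ?_⟩
  have e : ((x.val : ℕ) : ZMod h) = x := ZMod.natCast_zmod_val x
  rw [← e, key, map_natCast, ZMod.natCast_eq_zero_iff]

/-- Kneser's theorem in `ZMod h`. -/
theorem expand {h : ℕ} [NeZero h] (R A : Finset (ZMod h)) (hR : R.Nonempty) (hA : A.Nonempty) :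
    A + R = univ ∨ ∃ (d : ℕ) (hd : d ∣ h), 0 < d ∧
      #(R.image (ZMod.castHom hd (ZMod d))) ≠ d ∧
      #A * d + #(R.image (ZMod.castHom hd (ZMod d))) * h ≤ #(A + R) * d + h := by
  classical
  obtain ⟨d, hd, hd0, hK⟩ := sub_zmod h (st (A + R)) (sg_st _)
  have : NeZero d := ⟨hd0.ne'⟩
  have hkn := kneser hA hR
  set K := st (A + R) with hKdef
  have hsg : Sg K := sg_st _
  have hcard : h = d * #K := by
    have h1 := card_fib hd K hK univ
    simpa [ZMod.card] using h1
  have hRK : R + K = univ.filter fun x : ZMod h =>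
      ZMod.castHom hd (ZMod d) x ∈ R.image (ZMod.castHom hd (ZMod d)) := by
    ext x
    simp only [mem_filter, mem_univ, true_and, mem_image]
    constructor
    · intro hx
      obtain ⟨a, ha, b, hb, rfl⟩ := mem_add.1 hx
      exact ⟨a, ha, by rw [map_add, (hK b).1 hb, add_zero]⟩
    · rintro ⟨a, ha, hax⟩
      exact mem_add.2 ⟨a, ha, x - a, (hK _).2 (by rw [map_sub, hax, sub_self]), by abel⟩
  have hRKc : #(R + K) = #(R.image (ZMod.castHom hd (ZMod d))) * #K := by
    rw [hRK, card_fib hd K hK]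
  have hAK : #A ≤ #(A + K) := card_le_card (hsg.subset_add A)
  by_cases hr : #(R.image (ZMod.castHom hd (ZMod d))) = d
  · left
    have h1 : R + K = univ := by
      rw [← Finset.card_eq_iff_eq_univ, hRKc, hr, ZMod.card]
      exact hcard.symm
    have h2 : A + R + K = A + R := add_st _
    rw [← h2, add_assoc, h1]
    obtain ⟨a, ha⟩ := hA
    ext x
    simp only [mem_univ, iff_true]
    exact mem_add.2 ⟨a, ha, x - a, mem_univ _, by abel⟩
  · right
    refine ⟨d, hd, hd0, hr, ?_⟩
    rw [hRKc] at hkn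
    have h3 : #A + #(R.image (ZMod.castHom hd (ZMod d))) * #K ≤ #(A + R) + #K := by omega
    have h4 := Nat.mul_le_mul_right d h3
    have e : #(R.image (ZMod.castHom hd (ZMod d))) * h =
        #(R.image (ZMod.castHom hd (ZMod d))) * #K * d := by
      rw [mul_assoc, mul_comm #K d, ← hcard]
    have e2 : h = #K * d := by rw [mul_comm]; exact hcard
    rw [e]
    calc #A * d + #(R.image (ZMod.castHom hd (ZMod d))) * #K * d
        = (#A + #(R.image (ZMod.castHom hd (ZMod d))) * #K) * d := by ring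
      _ ≤ (#(A + R) + #K) * d := h4
      _ = #(A + R) * d + h := by rw [add_mul, ← e2]

/-- the pigeonhole principle -/
theorem add_univ {h : ℕ} [NeZero h] (X Y : Finset (ZMod h)) (hc : h < #X + #Y) :
    X + Y = univ := by
  classical
  ext x
  simp only [mem_univ, iff_true]
  have h1 : #(Y.image fun y => x - y) = #Y :=
    card_image_of_injective _ (fun a b hab => by simpa using hab)
  have h2 : ¬ Disjoint X (Y.image fun y => x - y) := by
    intro hdis
    have h3 := card_union_of_disjoint hdis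
    have h4 := card_le_univ (X ∪ Y.image fun y => x - y)
    rw [ZMod.card] at h4
    omega
  obtain ⟨z, hz1, hz2⟩ := Finset.not_disjoint_iff.1 h2
  obtain ⟨y, hy, rfl⟩ := mem_image.1 hz2
  exact mem_add.2 ⟨x - y, hz1, y, hy, by abel⟩

end Pool.Agent.H91RS
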