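import Mathlib
import Pool.Agent.Results.MP_a3a416_nt.RegularClasses
import Pool.Agent.Results.MP_a3a416_nt.ResidueClasses
import Pool.Agent.H91RS.Grp

/-! The number of the residue classes modulo `d` that contain a regular index. -/

set_option autoImplicit false

namespace Pool.Agent.H91RS

open Finset
open Pool.Agent.Results.MP_a3a416_nt.RegularClasses (reg)

/-- regular indices -/
def Rg (p i : ℕ) : Prop :=
  1 ≤ i ∧ 2 * i + 3 ≤ p ∧ ¬ (p : ℤ) ∣ (bernoulli (2 * i)).num

open Classical in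
/-- the residue classes modulo `h` of the regular indices -/
noncomputable def RR (p h : ℕ) [NeZero h] : Finset (ZMod h) :=
  univ.filter fun x => ∃ i : ℕ, Rg p i ∧ ((i : ℕ) : ZMod h) = x

theorem mem_RR {p h : ℕ} [NeZero h] {x : ZMod h} :
    x ∈ RR p h ↔ ∃ i : ℕ, Rg p i ∧ ((i : ℕ) : ZMod h) = x := by
  simp [RR]

theorem rg_of_reg {p h j i : ℕ} (hi : i ∈ reg p h j) : Rg p i ∧ i % h = j := by
  unfold reg at hi
  obtain ⟨h1, h2, h3⟩ := mem_filter.1 hi
  rw [mem_Icc] at h1
  exact ⟨⟨h1.1, by omega, h3⟩, h2⟩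

/-- large `d` -/
theorem count {p d : ℕ} [NeZero d] (hp : p.Prime) (hp2 : p ≠ 2) (hd : d ∣ (p - 1) / 2) :
    2 * ((d : ℝ) - #(RR p d) - 1) * Real.log p ≤
      Real.log 4 + d * Real.log (2 * d * Real.log (2 * p)) := by
  classical
  have hN : 0 < (p - 1) / 2 := by
    have := hp.two_le; omega
  have hd0 : 0 < d := Nat.pos_of_ne_zero (NeZero.ne d)
  have hle : d ≤ (p - 1) / 2 := Nat.le_of_dvd hN hd
  have h1 := Pool.Agent.Results.MP_a3a416_nt.RegularClasses.result.2.2.1 p hp hp2 d 1 hd (by omega)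
  have hp1 : (1 : ℝ) < p := by exact_mod_cast hp.one_lt
  set E : Finset ℕ := (range d).filter fun j => reg p d j = ∅ with hE
  have hE1 : d ≤ #E + #(RR p d) := by
    have h2 : #((range d).filter fun j => ¬ reg p d j = ∅) ≤ #(RR p d) := by
      refine card_le_card_of_injOn (fun j => ((j : ℕ) : ZMod d)) ?_ ?_
      · intro j hj
        obtain ⟨hj1, hj2⟩ := mem_filter.1 (mem_coe.1 hj)
        obtain ⟨i, hi⟩ := nonempty_iff_ne_empty.2 hj2
        obtain ⟨h3, h4⟩ := rg_of_reg hi
        refine mem_coe.2 (mem_RR.2 ⟨i, h3, ?_⟩)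
        rw [← h4]
        exact (ZMod.natCast_mod i d).symm
      · intro a ha b hb hab
        have ha' := mem_range.1 (mem_filter.1 (mem_coe.1 ha)).1
        have hb' := mem_range.1 (mem_filter.1 (mem_coe.1 hb)).1
        have h3 := (ZMod.natCast_eq_natCast_iff' a b d).1 hab
        rwa [Nat.mod_eq_of_lt ha', Nat.mod_eq_of_lt hb'] at h3
    have h3 : #E + #((range d).filter fun j => ¬ reg p d j = ∅) = d := by
      have h4 := card_filter_add_card_filter_not (s := range d) (fun j => reg p d j = ∅)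
      rw [card_range] at h4
      convert h4
    omega
  have hE2 : #E ≤ (∑ j ∈ range d, (1 - ((reg p d j).card + if j = 0 then 1 else 0))) + 1 := by
    have h2 : #(E.erase 0) ≤ ∑ j ∈ range d, (1 - ((reg p d j).card + if j = 0 then 1 else 0)) := by
      calc #(E.erase 0) = ∑ j ∈ E.erase 0, 1 := by simp
        _ ≤ ∑ j ∈ E.erase 0, (1 - ((reg p d j).card + if j = 0 then 1 else 0)) := by
            refine sum_le_sum fun j hj => ?_
            obtain ⟨h3, h4⟩ := mem_erase.1 hj
            have h5 := (mem_filter.1 h4).2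
            rw [h5, if_neg h3]; simp
        _ ≤ _ := sum_le_sum_of_subset (fun j hj => (mem_filter.1 (mem_of_mem_erase hj)).1)
    have h3 := pred_card_le_card_erase (s := E) (a := 0)
    omega
  set S := ∑ j ∈ range d, (1 - ((reg p d j).card + if j = 0 then 1 else 0)) with hS
  have h4 : (2 * S : ℝ) * Real.log p ≤ Real.log 4 + d * Real.log (2 * d * Real.log (2 * p)) := by
    have hlog : 0 < Real.log (2 * p) := Real.log_pos (by linarith)
    have h5 : (0 : ℝ) < 2 * d * Real.log (2 * p) := by positivity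
    have h6 := Real.log_le_log (by positivity) h1
    rw [Real.log_pow, Real.log_mul (by norm_num) (by positivity), Real.log_pow] at h6
    push_cast at h6 ⊢
    simpa using h6
  have h7 : (d : ℝ) - #(RR p d) - 1 ≤ S := by
    have h8 : (d : ℝ) ≤ #E + #(RR p d) := by exact_mod_cast hE1
    have h9 : (#E : ℝ) ≤ S + 1 := by exact_mod_cast hE2
    linarith
  have h10 : 0 < Real.log p := Real.log_pos hp1
  nlinarith

/-- small `d` -/
theorem all_classes {p d : ℕ} [NeZero d] (hp : p.Prime) (h1 : d ^ Nat.totient (2 * d) < p)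
    (h2 : 2 ^ d * 3 < p) : RR p d = univ := by
  ext x
  simp only [mem_univ, iff_true]
  rw [mem_RR]
  have hd0 : 1 ≤ d := Nat.pos_of_ne_zero (NeZero.ne d)
  obtain ⟨m, hm1, hm2, hm3, hm4⟩ := Pool.Agent.Results.MP_a3a416_nt.ResidueClasses.result p d hp hd0
    h1 (x.val : ℤ) 1 le_rfl (by omega)
  refine ⟨m, ⟨by omega, ?_, hm4⟩, ?_⟩
  · have h3 : 2 * m < 2 ^ d * 3 := by omega
    have hp2 : p % 2 = 1 := by
      rcases hp.eq_two_or_odd with h | h
      · omega
      · exact h
    omega
  · have h3 := (ZMod.intCast_eq_intCast_iff _ _ d).2 hm1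
    push_cast at h3
    rw [h3, ZMod.natCast_zmod_val]

end Pool.Agent.H91RS
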