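import Mathlib
import Pool.Agent.H91RS.Num

/-! Sumsets with the regular indices. -/

set_option autoImplicit false

namespace Pool.Agent.H91RS

open Finset Pointwise Filter Topology

/-- the conditions on `p` -/
theorem large : ∃ P : ℕ, ∀ p : ℕ, P ≤ p → 10 ≤ Real.log (Real.log p) ∧ 5 ≤ p ∧
    30 * Real.log (Real.log p) < Real.log p := by
  have h1 : Tendsto (fun p : ℕ => Real.log (p : ℝ)) atTop atTop :=
    Real.tendsto_log_atTop.comp tendsto_natCast_atTop_atTop
  have h2 : Tendsto (fun p : ℕ => Real.log (Real.log (p : ℝ))) atTop atTop :=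
    Real.tendsto_log_atTop.comp h1
  have h3 : ∀ᶠ x : ℝ in atTop, 30 * Real.log x < x := by
    have := Real.isLittleO_log_id_atTop.def (c := 1 / 60) (by norm_num)
    filter_upwards [this, eventually_gt_atTop 1] with x hx hx1
    simp only [id, Real.norm_eq_abs] at hx
    rw [abs_of_pos (by linarith : (0 : ℝ) < x)] at hx
    have := le_abs_self (Real.log x)
    linarith
  obtain ⟨P, hP⟩ := eventually_atTop.1 ((h2.eventually_ge_atTop 10).and
    ((eventually_ge_atTop 5).and (h1.eventually h3)))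
  exact ⟨P, fun p hp => hP p hp⟩

/-- the loss -/
noncomputable def lam (p h : ℕ) : ℝ :=
  (Real.log h + 10 * Real.log (Real.log p)) / (2 * Real.log p)

theorem one_mem {p h : ℕ} [NeZero h] (hp : 5 ≤ p) : ((1 : ℕ) : ZMod h) ∈ RR p h := by
  refine mem_RR.2 ⟨1, ⟨le_rfl, by omega, ?_⟩, rfl⟩
  rw [show 2 * 1 = 2 from rfl, bernoulli_two, show ((6⁻¹ : ℚ)).num = 1 by norm_num]
  intro h
  have := Int.le_of_dvd (by norm_num) h
  omega

theorem image_sub {p h d : ℕ} [NeZero h] [NeZero d] (hd : d ∣ h) :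
    RR p d ⊆ (RR p h).image (ZMod.castHom hd (ZMod d)) := by
  intro x hx
  obtain ⟨i, hi, rfl⟩ := mem_RR.1 hx
  exact mem_image.2 ⟨((i : ℕ) : ZMod h), mem_RR.2 ⟨i, hi, rfl⟩, map_natCast _ i⟩

/-- `d` is large if not all classes modulo `d` contain a regular index -/
theorem d_large {p d : ℕ} [NeZero d] (hp : p.Prime) (hLL : 10 ≤ Real.log (Real.log p))
    (h5 : 5 ≤ p) (hr : RR p d ≠ univ) :
    Real.log p ≤ d * (2 * Real.log (Real.log p)) := by
  by_contra hlt
  push_neg at hlt
  apply hr
  have hd0 : 0 < d := Nat.pos_of_ne_zero (NeZero.ne d)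
  have hdR : (1 : ℝ) ≤ d := by exact_mod_cast hd0
  set L := Real.log p with hL
  set LL := Real.log L with hLLdef
  have hp0 : (0 : ℝ) < p := by exact_mod_cast hp.pos
  have hLpos : 0 < L := Real.log_pos (by exact_mod_cast hp.one_lt)
  have hdL : (d : ℝ) ≤ L := by nlinarith
  have hlogd : Real.log d ≤ LL := Real.log_le_log (by linarith) hdL
  have hlogd0 : 0 ≤ Real.log d := Real.log_nonneg hdR
  apply all_classes hp
  · have h1 : Real.log ((d : ℝ) ^ Nat.totient (2 * d)) < L := by
      rw [Real.log_pow]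
      have h2 : (Nat.totient (2 * d) : ℝ) ≤ 2 * d := by exact_mod_cast Nat.totient_le (2 * d)
      calc (Nat.totient (2 * d) : ℝ) * Real.log d ≤ 2 * d * LL :=
            mul_le_mul h2 hlogd hlogd0 (by positivity)
        _ = d * (2 * LL) := by ring
        _ < L := hlt
    have h3 := (Real.log_lt_log_iff (by positivity) hp0).1 h1
    exact_mod_cast h3
  · have h1 : Real.log ((2 : ℝ) ^ d * 3) < L := by
      rw [Real.log_mul (by positivity) (by norm_num), Real.log_pow]
      have h2 : Real.log 2 < 0.7 := by have := Real.log_two_lt_d9; linarith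
      have h3 : Real.log 3 ≤ 2 := by
        have := Real.log_le_sub_one_of_pos (by norm_num : (0 : ℝ) < 3); linarith
      have h4 : (d : ℝ) * Real.log 2 ≤ d * 0.7 := by
        apply mul_le_mul_of_nonneg_left h2.le (by linarith)
      nlinarith
    have h3 := (Real.log_lt_log_iff (by positivity) hp0).1 h1
    exact_mod_cast h3

/-- expansion -/
theorem main {p h : ℕ} [NeZero h] (hp : p.Prime) (hLL : 10 ≤ Real.log (Real.log p)) (h5 : 5 ≤ p)
    (hh : h ∣ (p - 1) / 2) (A : Finset (ZMod h)) (hA : A.Nonempty) :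
    A + RR p h = univ ∨ (#A : ℝ) + (1 - lam p h) * h ≤ (#(A + RR p h) : ℝ) := by
  classical
  rcases expand (RR p h) A ⟨_, one_mem h5⟩ hA with h1 | ⟨d, hd, hd0, hr, hk⟩
  · exact Or.inl h1
  right
  have : NeZero d := ⟨hd0.ne'⟩
  have hr2 : RR p d ≠ univ := by
    intro h2
    apply hr
    have h3 := image_sub (p := p) hd
    rw [h2] at h3
    have h4 : (RR p h).image (ZMod.castHom hd (ZMod d)) = univ := univ_subset_iff.1 h3
    rw [h4, card_univ, ZMod.card]
  have hdl := d_large hp hLL h5 hr2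
  have hcnt := count hp (by omega) (hd.trans hh)
  have hcard : #(RR p d) ≤ #((RR p h).image (ZMod.castHom hd (ZMod d))) := card_le_card (image_sub hd)
  have hh0 : 0 < h := Nat.pos_of_ne_zero (NeZero.ne h)
  have hdh : d ≤ h := Nat.le_of_dvd hh0 hd
  set r := #((RR p h).image (ZMod.castHom hd (ZMod d))) with hrdef
  set r' := #(RR p d) with hr'def
  have hkR : (#A : ℝ) * d + r * h ≤ #(A + RR p h) * d + h := by exact_mod_cast hk
  have hcR : (r' : ℝ) ≤ r := by exact_mod_cast hcard
  have hdR : (1 : ℝ) ≤ d := by exact_mod_cast hd0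
  have hhR : (1 : ℝ) ≤ h := by exact_mod_cast hh0
  have hdhR : (d : ℝ) ≤ h := by exact_mod_cast hdh
  unfold lam
  set L := Real.log p with hL
  set LL := Real.log L with hLLdef
  have hp0 : (0 : ℝ) < p := by exact_mod_cast hp.pos
  have hLpos : 0 < L := Real.log_pos (by exact_mod_cast hp.one_lt)
  have hL10 : 10 ≤ L := by
    have := Real.log_le_sub_one_of_pos hLpos
    linarith
  -- the logarithm
  have e1 : Real.log (2 * d * Real.log (2 * p)) ≤ Real.log h + LL + 1 := by
    have h2 : Real.log (2 * (p : ℝ)) = Real.log 2 + L := Real.log_mul (by norm_num) hp0.ne'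
    have h3 : Real.log 2 < 0.7 := by have := Real.log_two_lt_d9; linarith
    have h3' : 0 < Real.log 2 := Real.log_pos (by norm_num)
    rw [h2]
    have h4 : Real.log (2 * d * (Real.log 2 + L)) ≤ Real.log (h * L * Real.exp 1) := by
      apply Real.log_le_log (by positivity)
      have h6 : (2.7 : ℝ) < Real.exp 1 := by have := Real.exp_one_gt_d9; linarith
      have h7 : 2 * d * (Real.log 2 + L) ≤ 2 * h * (Real.log 2 + L) := by
        apply mul_le_mul_of_nonneg_right _ (by positivity); linarith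
      have h8 : 2 * h * (Real.log 2 + L) ≤ h * L * 2.7 := by
        have h9 : 2 * (Real.log 2 + L) ≤ L * 2.7 := by linarith
        nlinarith
      have h10 : h * L * 2.7 ≤ h * L * Real.exp 1 :=
        mul_le_mul_of_nonneg_left h6.le (by positivity)
      linarith
    rw [Real.log_mul (by positivity) (Real.exp_pos 1).ne', Real.log_mul (by positivity) hLpos.ne',
      Real.log_exp] at h4
    exact h4
  have hlog4 : Real.log 4 ≤ 3 := by
    have := Real.log_le_sub_one_of_pos (by norm_num : (0 : ℝ) < 4); linarith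
  -- 2 (d - r - 1) L ≤ 3 + d (log h + LL + 1)
  have e2 : 2 * ((d : ℝ) - r - 1) * L ≤ 3 + d * (Real.log h + LL + 1) := by
    have h2 : 2 * ((d : ℝ) - r - 1) * L ≤ 2 * ((d : ℝ) - r' - 1) * L := by
      apply mul_le_mul_of_nonneg_right _ hLpos.le; linarith
    have h3 : (d : ℝ) * Real.log (2 * d * Real.log (2 * p)) ≤ d * (Real.log h + LL + 1) :=
      mul_le_mul_of_nonneg_left e1 (by linarith)
    linarith
  -- conclusion
  have e3 : 2 * ((d : ℝ) - (r - 1)) * L ≤ d * (Real.log h + 10 * LL) := by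
    have h2 : 4 * L ≤ d * (8 * LL) := by linarith
    nlinarith
  have e4 : ((d : ℝ) - (r - 1)) ≤ d * ((Real.log h + 10 * LL) / (2 * L)) := by
    rw [← mul_div_assoc, le_div_iff₀ (by positivity)]
    linarith
  have e5 : ((d : ℝ) - (r - 1)) * h ≤ d * ((Real.log h + 10 * LL) / (2 * L)) * h :=
    mul_le_mul_of_nonneg_right e4 (by linarith)
  have e6 : ((#A : ℝ) + (1 - (Real.log h + 10 * LL) / (2 * L)) * h) * d ≤ #(A + RR p h) * d := by
    nlinarith
  exact le_of_mul_le_mul_right e6 (by linarith)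

end Pool.Agent.H91RS
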