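import Mathlib
import Pool.Agent.H91RS.Main

/-! Corollaries of the expansion theorem. -/

set_option autoImplicit false

namespace Pool.Agent.H91RS

open Finset Pointwise

/-- the conditions on `p` -/
def Lg (p : ℕ) : Prop := 10 ≤ Real.log (Real.log p) ∧ 5 ≤ p ∧
    30 * Real.log (Real.log p) < Real.log p

theorem lam_nonneg {p h : ℕ} [NeZero h] (hL : Lg p) : 0 ≤ lam p h := by
  obtain ⟨h1, h2, h3⟩ := hL
  have hh : (1 : ℝ) ≤ h := by exact_mod_cast Nat.pos_of_ne_zero (NeZero.ne h)
  have := Real.log_nonneg hh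
  unfold lam
  apply div_nonneg <;> linarith

theorem card_RR {p h : ℕ} [NeZero h] (hp : p.Prime) (hL : Lg p) (hh : h ∣ (p - 1) / 2) :
    (1 - lam p h) * h ≤ (#(RR p h) : ℝ) := by
  have hz : ({0} : Finset (ZMod h)) + RR p h = RR p h := by
    rw [Finset.singleton_zero, zero_add]
  have hh1 : (1 : ℝ) ≤ h := by exact_mod_cast Nat.pos_of_ne_zero (NeZero.ne h)
  rcases main hp hL.1 hL.2.1 hh {0} (singleton_nonempty 0) with h1 | h1
  · rw [hz] at h1
    rw [h1, card_univ, ZMod.card]
    have := lam_nonneg (h := h) hL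
    nlinarith
  · rw [hz, card_singleton] at h1
    push_cast at h1
    linarith

theorem two_sets {p h : ℕ} [NeZero h] (hp : p.Prime) (hL : Lg p) (hh : h ∣ (p - 1) / 2)
    (A B : Finset (ZMod h)) (hA : A.Nonempty) (hB : B.Nonempty)
    (hAB : lam p h * h < (#A : ℝ) + #B) : A + B + RR p h = univ := by
  have e : A + B + RR p h = (A + RR p h) + B := by abel
  rw [e]
  have hBpos : 0 < #B := hB.card_pos
  apply add_univ
  rcases main hp hL.1 hL.2.1 hh A hA with h1 | h1
  · rw [h1, card_univ, ZMod.card]; omega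
  · have : (h : ℝ) < #(A + RR p h) + #B := by linarith
    exact_mod_cast this

theorem lam_le {p h : ℕ} [NeZero h] (hL : Lg p) (hh : h ∣ (p - 1) / 2) :
    lam p h ≤ 1 / 2 + 5 * (Real.log (Real.log p) / Real.log p) := by
  obtain ⟨h1, h2, h3⟩ := hL
  have hN : 0 < (p - 1) / 2 := by omega
  have h4 : h ≤ p := (Nat.le_of_dvd hN hh).trans (by omega)
  have h5 : (0 : ℝ) < h := by exact_mod_cast Nat.pos_of_ne_zero (NeZero.ne h)
  have h6 : Real.log h ≤ Real.log p := Real.log_le_log h5 (by exact_mod_cast h4)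
  have h7 : 0 < Real.log p := by linarith
  unfold lam
  rw [div_le_iff₀ (by linarith)]
  have e : (1 / 2 + 5 * (Real.log (Real.log p) / Real.log p)) * (2 * Real.log p) =
      Real.log p + 10 * Real.log (Real.log p) := by
    field_simp
    ring
  rw [e]
  linarith

theorem three {p h : ℕ} [NeZero h] (hp : p.Prime) (hL : Lg p) (hh : h ∣ (p - 1) / 2) :
    RR p h + RR p h + RR p h = univ := by
  have hne : (RR p h).Nonempty := ⟨_, one_mem hL.2.1⟩
  apply two_sets hp hL hh _ _ hne hne
  have h1 := card_RR hp hL hh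
  have h2 := lam_le hL hh
  obtain ⟨h3, h4, h5⟩ := hL
  have h6 : Real.log (Real.log p) / Real.log p < 1 / 30 := by
    rw [div_lt_iff₀ (by linarith)]; linarith
  have h7 : (1 : ℝ) ≤ h := by exact_mod_cast Nat.pos_of_ne_zero (NeZero.ne h)
  nlinarith

theorem two {p h : ℕ} [NeZero h] (hp : p.Prime) (hL : Lg p) (hh : h ∣ (p - 1) / 2)
    (hs : (h : ℝ) * Real.log p ^ 10 < p) : RR p h + RR p h = univ := by
  apply add_univ
  have h1 := card_RR hp hL hh
  have h7 : (1 : ℝ) ≤ h := by exact_mod_cast Nat.pos_of_ne_zero (NeZero.ne h)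
  obtain ⟨h3, h4, h5⟩ := hL
  have h8 : 0 < Real.log p := by linarith
  have h9 := Real.log_lt_log (by positivity) hs
  rw [Real.log_mul (by positivity) (by positivity), Real.log_pow] at h9
  push_cast at h9
  have h10 : lam p h < 1 / 2 := by
    unfold lam
    rw [div_lt_iff₀ (by linarith)]
    linarith
  have : (h : ℝ) < #(RR p h) + #(RR p h) := by nlinarith
  exact_mod_cast this

theorem two_exc {p h : ℕ} [NeZero h] (hp : p.Prime) (hL : Lg p) (hh : h ∣ (p - 1) / 2) :
    (#((RR p h + RR p h)ᶜ) : ℝ) ≤ 10 * Real.log (Real.log p) / Real.log p * h := by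
  have hne : (RR p h).Nonempty := ⟨_, one_mem hL.2.1⟩
  have h7 : (1 : ℝ) ≤ h := by exact_mod_cast Nat.pos_of_ne_zero (NeZero.ne h)
  have h2 := lam_le hL hh
  have h1 := card_RR hp hL hh
  have hLL : 0 ≤ Real.log (Real.log p) / Real.log p := by
    obtain ⟨h3, h4, h5⟩ := hL
    apply div_nonneg <;> linarith
  have e0 : 10 * Real.log (Real.log p) / Real.log p = 10 * (Real.log (Real.log p) / Real.log p) := by
    ring
  rw [e0]
  rcases main hp hL.1 hL.2.1 hh _ hne with h3 | h3
  · rw [h3, compl_univ, card_empty]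
    push_cast
    positivity
  · have h4 : (#((RR p h + RR p h)ᶜ) : ℝ) = h - #(RR p h + RR p h) := by
      rw [card_compl, ZMod.card, Nat.cast_sub]
      have := card_le_univ (RR p h + RR p h)
      rwa [ZMod.card] at this
    rw [h4]
    nlinarith

end Pool.Agent.H91RS
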