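import Mathlib
import Pool.Agent.H91RS.Cor

/-! Sums of regular indices as integers: combinatorial part. -/

set_option autoImplicit false

namespace Pool.Agent.H91RS

open Finset Pointwise

/-- Kneser's theorem for an arbitrary modulus. -/
theorem main2 {p m : ℕ} [NeZero m] (hp : p.Prime) (hLL : 10 ≤ Real.log (Real.log p)) (h5 : 5 ≤ p)
    (A : Finset (ZMod m)) (hA : A.Nonempty) :
    A + RR p m = univ ∨
      (#A : ℝ) + #(RR p m) - 2 * (Real.log (Real.log p) / Real.log p) * m ≤ (#(A + RR p m) : ℝ) := by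
  classical
  rcases expand (RR p m) A ⟨_, one_mem h5⟩ hA with h1 | ⟨d, hd, hd0, hr, hk⟩
  · exact Or.inl h1
  right
  have : NeZero d := ⟨hd0.ne'⟩
  have hr2 : RR p d ≠ univ := by
    intro h2
    apply hr
    have h3 := image_sub (p := p) hd
    rw [h2] at h3
    have h4 : (RR p m).image (ZMod.castHom hd (ZMod d)) = univ := univ_subset_iff.1 h3
    rw [h4, card_univ, ZMod.card]
  have hdl := d_large hp hLL h5 hr2
  set K : Finset (ZMod m) := univ.filter fun x => ZMod.castHom hd (ZMod d) x = 0 with hKdef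
  have hK : ∀ x, x ∈ K ↔ ZMod.castHom hd (ZMod d) x = 0 := fun x => by
    rw [hKdef, mem_filter]; exact ⟨fun h => h.2, fun h => ⟨mem_univ _, h⟩⟩
  have hm : m = d * #K := by
    have h1 := card_fib hd K hK univ
    simpa [ZMod.card] using h1
  set r := #((RR p m).image (ZMod.castHom hd (ZMod d))) with hrdef
  have hR : #(RR p m) ≤ r * #K := by
    rw [hrdef, ← card_fib hd K hK]
    exact card_le_card fun x hx => mem_filter.2 ⟨mem_univ _, mem_image_of_mem _ hx⟩
  have hRm : #(RR p m) * d ≤ r * m := by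
    calc #(RR p m) * d ≤ r * #K * d := Nat.mul_le_mul_right d hR
      _ = r * (d * #K) := by ring
      _ = r * m := by rw [← hm]
  have h1 : #A * d + #(RR p m) * d ≤ #(A + RR p m) * d + m := by omega
  have h2 : (#A : ℝ) * d + #(RR p m) * d ≤ #(A + RR p m) * d + m := by exact_mod_cast h1
  have hdR : (1 : ℝ) ≤ d := by exact_mod_cast hd0
  have hmR : (0 : ℝ) ≤ m := by positivity
  set L := Real.log p with hL
  set LL := Real.log L with hLLdef
  have hLpos : 0 < L := Real.log_pos (by exact_mod_cast hp.one_lt)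
  have h3 : (m : ℝ) ≤ 2 * (LL / L) * m * d := by
    have h4 : 1 ≤ 2 * (LL / L) * d := by
      have e : 2 * (LL / L) * d = (d * (2 * LL)) / L := by ring
      rw [e, le_div_iff₀ hLpos]; linarith
    nlinarith
  have h6 : ((#A : ℝ) + #(RR p m) - 2 * (LL / L) * m) * d ≤ #(A + RR p m) * d := by nlinarith
  exact le_of_mul_le_mul_right h6 (by linarith)

/-- `K` is a sum of exactly `n` regular indices -/
def S (p n K : ℕ) : Prop :=
  ∃ T : Multiset ℕ, Multiset.card T = n ∧ (∀ i ∈ T, Rg p i) ∧ T.sum = K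

theorem S.add {p n K n' K' : ℕ} (h : S p n K) (h' : S p n' K') : S p (n + n') (K + K') := by
  obtain ⟨T, h1, h2, h3⟩ := h
  obtain ⟨T', h1', h2', h3'⟩ := h'
  refine ⟨T + T', by rw [Multiset.card_add, h1, h1'], fun i hi => ?_, by
    rw [Multiset.sum_add, h3, h3']⟩
  rcases Multiset.mem_add.1 hi with h | h
  · exact h2 i h
  · exact h2' i h

theorem S.one {p i : ℕ} (h : Rg p i) : S p 1 i :=
  ⟨{i}, by simp, fun j hj => by rw [Multiset.mem_singleton.1 hj]; exact h, by simp⟩

theorem S.two {p i j : ℕ} (h : Rg p i) (h' : Rg p j) : S p 2 (i + j) := (S.one h).add (S.one h')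

theorem S.three {p i j k : ℕ} (h : Rg p i) (h' : Rg p j) (h'' : Rg p k) : S p 3 (i + j + k) :=
  (S.two h h').add (S.one h'')

theorem S.five {p i j k a b : ℕ} (h : Rg p i) (h' : Rg p j) (h'' : Rg p k) (ha : Rg p a)
    (hb : Rg p b) : S p 5 (i + j + k + a + b) :=
  ((S.three h h' h'').add (S.one ha)).add (S.one hb)

theorem dvd_of_eq {l a b : ℕ} (h : ((a : ℕ) : ZMod l) = ((b : ℕ) : ZMod l)) :
    ∃ t : ℤ, (a : ℤ) - b = l * t := by
  have h1 : (((a : ℤ) - b : ℤ) : ZMod l) = 0 := by push_cast; rw [h, sub_self]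
  exact (ZMod.intCast_zmod_eq_zero_iff_dvd _ _).1 h1

/-- sums of three -/
theorem claim3 {p l : ℕ} [NeZero l] (h1 : Rg p 1) (hM : Rg p (l + 1)) (hmax : ∀ i, Rg p i → i ≤ l + 1)
    (K : ℕ) (hK1 : l + 3 ≤ K) (hK2 : K ≤ 2 * l + 2)
    (hK : ((K : ℕ) : ZMod l) - 1 ∈ RR p l + RR p l) : S p 3 K := by
  obtain ⟨a, ha, b, hb, hab⟩ := mem_add.1 hK
  obtain ⟨i, hi, rfl⟩ := mem_RR.1 ha
  obtain ⟨j, hj, rfl⟩ := mem_RR.1 hb
  have hl : 0 < l := Nat.pos_of_ne_zero (NeZero.ne l)
  have e : ((i + j + 1 : ℕ) : ZMod l) = ((K : ℕ) : ZMod l) := by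
    push_cast; rw [hab]; ring
  obtain ⟨t, ht⟩ := dvd_of_eq e
  have hi1 := hi.1; have hj1 := hj.1
  have hi2 := hmax i hi; have hj2 := hmax j hj
  have ht1 : -2 < t := by
    by_contra hc
    have : t ≤ -2 := by omega
    have : (l : ℤ) * t ≤ l * (-2) := mul_le_mul_of_nonneg_left this (by positivity)
    push_cast at ht
    omega
  have ht2 : t < 2 := by
    by_contra hc
    have : 2 ≤ t := by omega
    have : (l : ℤ) * 2 ≤ l * t := mul_le_mul_of_nonneg_left this (by positivity)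
    push_cast at ht
    omega
  interval_cases t
  · have e2 : K = i + j + (l + 1) := by push_cast at ht; omega
    rw [e2]; exact S.three hi hj hM
  · have e2 : K = i + j + 1 := by push_cast at ht; omega
    rw [e2]; exact S.three hi hj h1
  · have e2 : K = 1 + 1 + (l + 1) := by push_cast at ht; omega
    rw [e2]; exact S.three h1 h1 hM

/-- sums of five -/
theorem claim5 {p l : ℕ} [NeZero l] (h1 : Rg p 1) (hM : Rg p (l + 1)) (hmax : ∀ i, Rg p i → i ≤ l + 1)
    (K : ℕ) (hK1 : 2 * l + 5 ≤ K) (hK2 : K ≤ 3 * l + 5)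
    (h3 : RR p l + RR p l + RR p l = univ) : S p 5 K := by
  have hK : ((K : ℕ) : ZMod l) - 2 ∈ RR p l + RR p l + RR p l := by rw [h3]; exact mem_univ _
  obtain ⟨x, hx, c, hc, hxc⟩ := mem_add.1 hK
  obtain ⟨a, ha, b, hb, rfl⟩ := mem_add.1 hx
  obtain ⟨i, hi, rfl⟩ := mem_RR.1 ha
  obtain ⟨j, hj, rfl⟩ := mem_RR.1 hb
  obtain ⟨k, hk, rfl⟩ := mem_RR.1 hc
  have hl : 0 < l := Nat.pos_of_ne_zero (NeZero.ne l)
  have e : ((i + j + k + 2 : ℕ) : ZMod l) = ((K : ℕ) : ZMod l) := by
    push_cast; rw [hxc]; ring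
  obtain ⟨t, ht⟩ := dvd_of_eq e
  have hi1 := hi.1; have hj1 := hj.1; have hk1 := hk.1
  have hi2 := hmax i hi; have hj2 := hmax j hj; have hk2 := hmax k hk
  have ht1 : -4 < t := by
    by_contra hc
    have : t ≤ -4 := by omega
    have : (l : ℤ) * t ≤ l * (-4) := mul_le_mul_of_nonneg_left this (by positivity)
    push_cast at ht
    omega
  have ht2 : t < 2 := by
    by_contra hc
    have : 2 ≤ t := by omega
    have : (l : ℤ) * 2 ≤ l * t := mul_le_mul_of_nonneg_left this (by positivity)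
    push_cast at ht
    omega
  interval_cases t
  · have e2 : K = (l + 1) + (l + 1) + (l + 1) + 1 + 1 := by push_cast at ht; omega
    rw [e2]; exact S.five hM hM hM h1 h1
  · have e2 : K = i + j + k + (l + 1) + (l + 1) := by push_cast at ht; omega
    rw [e2]; exact S.five hi hj hk hM hM
  · have e2 : K = i + j + k + 1 + (l + 1) := by push_cast at ht; omega
    rw [e2]; exact S.five hi hj hk h1 hM
  · have e2 : K = i + j + k + 1 + 1 := by push_cast at ht; omega
    rw [e2]; exact S.five hi hj hk h1 h1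
  · have e2 : K = (l + 1) + (l + 1) + 1 + 1 + 1 := by push_cast at ht; omega
    rw [e2]; exact S.five hM hM h1 h1 h1

open Classical in
/-- the bad integers -/
noncomputable def Bad (p l : ℕ) [NeZero l] : Finset ℕ :=
  (Icc (l + 3) (2 * l + 2)).filter fun K => ((K : ℕ) : ZMod l) - 1 ∉ RR p l + RR p l

theorem inj_interval {l a : ℕ} (x y : ℕ) (hx : a ≤ x) (hx' : x < a + l)
    (hy : a ≤ y) (hy' : y < a + l) (h : ((x : ℕ) : ZMod l) = ((y : ℕ) : ZMod l)) : x = y := by
  obtain ⟨t, ht⟩ := dvd_of_eq h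
  have hl : (0 : ℤ) < l := by omega
  have h1 : -1 < t := by
    by_contra hc
    have : t ≤ -1 := by omega
    have : (l : ℤ) * t ≤ l * (-1) := mul_le_mul_of_nonneg_left this hl.le
    omega
  have h2 : t < 1 := by
    by_contra hc
    have : 1 ≤ t := by omega
    have : (l : ℤ) * 1 ≤ l * t := mul_le_mul_of_nonneg_left this hl.le
    omega
  have h3 : t = 0 := by omega
  rw [h3] at ht
  omega

theorem card_Bad {p l : ℕ} [NeZero l] : #(Bad p l) + #(RR p l + RR p l) ≤ l := by
  classical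
  have h1 : #(Bad p l) ≤ #((RR p l + RR p l)ᶜ) := by
    refine card_le_card_of_injOn (fun K => ((K : ℕ) : ZMod l) - 1) ?_ ?_
    · intro K hK
      exact mem_coe.2 (mem_compl.2 (mem_filter.1 (mem_coe.1 hK)).2)
    · intro x hx y hy hxy
      have hx' := mem_Icc.1 (mem_filter.1 (mem_coe.1 hx)).1
      have hy' := mem_Icc.1 (mem_filter.1 (mem_coe.1 hy)).1
      exact inj_interval (l := l) (a := l + 3) x y hx'.1 (by omega) hy'.1 (by omega)
        (sub_left_injective hxy)
  have h2 := card_le_univ (RR p l + RR p l)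
  rw [card_compl, ZMod.card] at h1
  rw [ZMod.card] at h2
  omega

open Classical in
/-- the set of the regular indices -/
noncomputable def Rf (p : ℕ) : Finset ℕ := (Icc 1 p).filter fun i => Rg p i

theorem mem_Rf {p i : ℕ} : i ∈ Rf p ↔ Rg p i := by
  classical
  simp only [Rf, mem_filter, mem_Icc]
  constructor
  · exact fun h => h.2
  · exact fun h => ⟨⟨h.1, by have := h.2.1; omega⟩, h⟩

/-- sums of four -/
theorem claim4 {p l : ℕ} [NeZero l] (h1 : Rg p 1) (hM : Rg p (l + 1)) (hmax : ∀ i, Rg p i → i ≤ l + 1)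
    (K : ℕ) (hc : (2 * l + 4 - K) + (K - 2 * l - 3) + #(Bad p l) < #(Rf p)) : S p 4 K := by
  classical
  set F : Finset ℕ := (Rf p).filter fun r => l + 3 + r ≤ K ∧ K ≤ 2 * l + 2 + r with hF
  have hFc : #(Rf p) ≤ #F + ((2 * l + 4 - K) + (K - 2 * l - 3)) := by
    have h2 : Rf p ⊆ F ∪ (Ico (K - l - 2) (l + 2) ∩ Ico 1 (l + 2)) ∪ Ico 1 (K - 2 * l - 2) := by
      intro r hr
      have h3 := mem_Rf.1 hr
      have h4 := hmax r h3
      have h5 := h3.1
      by_cases h6 : l + 3 + r ≤ K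
      · by_cases h7 : K ≤ 2 * l + 2 + r
        · exact mem_union_left _ (mem_union_left _ (mem_filter.2 ⟨hr, h6, h7⟩))
        · exact mem_union_right _ (mem_Ico.2 ⟨h5, by omega⟩)
      · exact mem_union_left _ (mem_union_right _ (mem_inter.2 ⟨mem_Ico.2 ⟨by omega, by omega⟩,
          mem_Ico.2 ⟨h5, by omega⟩⟩))
    have h3 := (card_le_card h2).trans ((card_union_le _ _).trans
      (Nat.add_le_add_right (card_union_le _ _) _))
    have h4 : #(Ico (K - l - 2) (l + 2) ∩ Ico 1 (l + 2)) ≤ 2 * l + 4 - K := by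
      refine (card_le_card inter_subset_left).trans ?_
      rw [Nat.card_Ico]; omega
    rw [Nat.card_Ico] at h3
    omega
  have hlt : #(Bad p l) < #F := by omega
  have hex : ∃ r ∈ F, K - r ∉ Bad p l := by
    by_contra hcon
    push Not at hcon
    have h2 : #F ≤ #(Bad p l) := by
      refine card_le_card_of_injOn (fun r => K - r) (fun r hr => mem_coe.2 (hcon r (mem_coe.1 hr))) ?_
      intro x hx y hy hxy
      have hx' := (mem_filter.1 (mem_coe.1 hx)).2
      have hy' := (mem_filter.1 (mem_coe.1 hy)).2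
      simp only at hxy
      omega
    omega
  obtain ⟨r, hr, hrb⟩ := hex
  obtain ⟨hr1, hr2, hr3⟩ := mem_filter.1 hr
  have h3 : (((K - r : ℕ) : ℕ) : ZMod l) - 1 ∈ RR p l + RR p l := by
    by_contra hcon
    exact hrb (mem_filter.2 ⟨mem_Icc.2 ⟨by omega, by omega⟩, hcon⟩)
  have h4 := (claim3 h1 hM hmax (K - r) (by omega) (by omega) h3).add (S.one (mem_Rf.1 hr1))
  have e : K - r + r = K := by omega
  rwa [e] at h4

end Pool.Agent.H91RS
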