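import Mathlib
import Pool.Agent.H17Reg.Basis
import Pool.Agent.H91RS.Int1

/-! Sums of regular indices as integers: the estimates. -/

set_option autoImplicit false

namespace Pool.Agent.H91RS

open Finset Pointwise Filter Topology

theorem large2 (η : ℝ) (hη : 0 < η) : ∃ P : ℕ, ∀ p : ℕ, P ≤ p → Lg p ∧
    Real.log (Real.log p) / Real.log p ≤ η / 34 ∧ 8 / η + 100 ≤ √(p : ℝ) := by
  obtain ⟨P₀, hP₀⟩ := large
  have h1 : Tendsto (fun p : ℕ => Real.log (p : ℝ)) atTop atTop :=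
    Real.tendsto_log_atTop.comp tendsto_natCast_atTop_atTop
  have h3 : ∀ᶠ x : ℝ in atTop, Real.log x / x ≤ η / 34 := by
    have := Real.isLittleO_log_id_atTop.def (c := η / 34) (by positivity)
    filter_upwards [this, eventually_gt_atTop 1] with x hx hx1
    simp only [id, Real.norm_eq_abs] at hx
    rw [abs_of_pos (by linarith : (0 : ℝ) < x)] at hx
    have := le_abs_self (Real.log x)
    rw [div_le_iff₀ (by linarith)]
    linarith
  have h4 : Tendsto (fun p : ℕ => √(p : ℝ)) atTop atTop :=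
    Real.tendsto_sqrt_atTop.comp tendsto_natCast_atTop_atTop
  obtain ⟨P, hP⟩ := eventually_atTop.1 ((eventually_ge_atTop P₀).and
    ((h1.eventually h3).and (h4.eventually_ge_atTop (8 / η + 100))))
  exact ⟨P, fun p hp => ⟨hP₀ p (hP p hp).1, (hP p hp).2.1, (hP p hp).2.2⟩⟩

/-- the number of the regular indices -/
theorem card_Rf {p : ℕ} (hp : p.Prime) (hL : Lg p) :
    (1 / 2 - 5 * (Real.log (Real.log p) / Real.log p)) * ((p - 1) / 2 : ℕ) ≤ (#(Rf p) : ℝ) := by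
  have hN : 0 < (p - 1) / 2 := by have := hL.2.1; omega
  have : NeZero ((p - 1) / 2) := ⟨hN.ne'⟩
  have h1 := card_RR hp hL (dvd_refl ((p - 1) / 2))
  have h2 := lam_le hL (dvd_refl ((p - 1) / 2))
  have h3 : #(RR p ((p - 1) / 2)) ≤ #(Rf p) := by
    have h4 : RR p ((p - 1) / 2) ⊆ (Rf p).image fun i => ((i : ℕ) : ZMod ((p - 1) / 2)) := by
      intro x hx
      obtain ⟨i, hi, rfl⟩ := mem_RR.1 hx
      exact mem_image_of_mem _ (mem_Rf.2 hi)
    exact (card_le_card h4).trans card_image_le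
  have h4 : (#(RR p ((p - 1) / 2)) : ℝ) ≤ #(Rf p) := by exact_mod_cast h3
  have h5 : (0 : ℝ) < ((p - 1) / 2 : ℕ) := by exact_mod_cast hN
  nlinarith

/-- the largest regular index -/
theorem exists_M {p : ℕ} (hp : p.Prime) (hs : 100 ≤ √(p : ℝ)) : ∃ l : ℕ, 0 < l ∧ Rg p (l + 1) ∧
    (∀ i, Rg p i → i ≤ l + 1) ∧ (p : ℝ) / 2 - √(p : ℝ) ≤ ((l + 1 : ℕ) : ℝ) := by
  have hp1 : (100 : ℝ) * 100 ≤ p := by
    have h1 := Real.mul_self_sqrt (Nat.cast_nonneg (α := ℝ) p)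
    nlinarith
  have hp2 : 10000 ≤ p := by
    have : ((10000 : ℕ) : ℝ) ≤ p := by push_cast; linarith
    exact_mod_cast this
  obtain ⟨m, t, hm, ht1, ht2, hmt⟩ := Pool.Agent.H17Reg.near p hp ((p - 3) / 2) (by omega) (by omega)
  have hne : (Rf p).Nonempty := ⟨m, mem_Rf.2 hm⟩
  set M := (Rf p).max' hne with hM
  have hMR : Rg p M := mem_Rf.1 (max'_mem _ _)
  have hmax : ∀ i, Rg p i → i ≤ M := fun i hi => le_max' _ _ (mem_Rf.2 hi)
  have hmM := hmax m hm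
  have hodd : p % 2 = 1 := by
    rcases hp.eq_two_or_odd with h | h
    · omega
    · exact h
  have h3 : p ≤ 2 * (M + t) + 3 := by omega
  have h3R : (p : ℝ) ≤ 2 * (M + t) + 3 := by exact_mod_cast h3
  have h4 : 2 * (t * t) ≤ p := by omega
  have h4R : 2 * ((t : ℝ) * t) ≤ p := by exact_mod_cast h4
  have h5 : (t : ℝ) + 3 / 2 ≤ √(p : ℝ) := by
    apply Real.le_sqrt_of_sq_le
    nlinarith [sq_nonneg ((t : ℝ) - 3)]
  have h6 : (p : ℝ) / 2 - √(p : ℝ) ≤ M := by linarith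
  have h7 : 2 ≤ M := by
    have h8 : √(p : ℝ) * 100 ≤ p := by
      have h1 := Real.mul_self_sqrt (Nat.cast_nonneg (α := ℝ) p)
      nlinarith
    have h9 : (2 : ℝ) ≤ M := by linarith
    exact_mod_cast h9
  obtain ⟨l, hl⟩ : ∃ l, M = l + 1 := ⟨M - 1, by omega⟩
  refine ⟨l, by omega, hl ▸ hMR, fun i hi => hl ▸ hmax i hi, ?_⟩
  rw [← hl]; exact h6

theorem card_RR_l {p l : ℕ} [NeZero l] (hM : Rg p (l + 1)) (hmax : ∀ i, Rg p i → i ≤ l + 1) :
    #(Rf p) ≤ #(RR p l) + 1 := by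
  classical
  have h1 : #((Rf p).erase (l + 1)) ≤ #(RR p l) := by
    refine card_le_card_of_injOn (fun i => ((i : ℕ) : ZMod l)) ?_ ?_
    · intro i hi
      exact mem_coe.2 (mem_RR.2 ⟨i, mem_Rf.1 (mem_of_mem_erase (mem_coe.1 hi)), rfl⟩)
    · intro x hx y hy hxy
      obtain ⟨hx1, hx2⟩ := mem_erase.1 (mem_coe.1 hx)
      obtain ⟨hy1, hy2⟩ := mem_erase.1 (mem_coe.1 hy)
      have hx3 := mem_Rf.1 hx2
      have hy3 := mem_Rf.1 hy2
      have hx4 := hmax x hx3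
      have hy4 := hmax y hy3
      exact inj_interval (l := l) (a := 1) x y hx3.1 (by omega) hy3.1 (by omega) hxy
  rw [card_erase_of_mem (mem_Rf.2 hM)] at h1
  omega

/-- the number of the bad integers -/
theorem card_Bad2 {p l : ℕ} [NeZero l] (hp : p.Prime) (hL : Lg p) (hM : Rg p (l + 1))
    (hmax : ∀ i, Rg p i → i ≤ l + 1) :
    (#(Bad p l) : ℝ) ≤ 12 * (Real.log (Real.log p) / Real.log p) * ((p - 1) / 2 : ℕ) + 2 := by
  have h1 := card_Bad (p := p) (l := l)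
  have h2 := card_Rf hp hL
  have h3 := card_RR_l hM hmax
  have hlN : l + 1 ≤ (p - 1) / 2 := by have := hM.2.1; omega
  have hlR : (l : ℝ) + 1 ≤ ((p - 1) / 2 : ℕ) := by exact_mod_cast hlN
  have h1R : (#(Bad p l) : ℝ) + #(RR p l + RR p l) ≤ l := by exact_mod_cast h1
  have h3R : (#(Rf p) : ℝ) ≤ #(RR p l) + 1 := by exact_mod_cast h3
  have hδ : 0 ≤ Real.log (Real.log p) / Real.log p := by
    obtain ⟨h3, h4, h5⟩ := hL
    apply div_nonneg <;> linarith
  set δ := Real.log (Real.log p) / Real.log p with hδdef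
  have hNR : (0 : ℝ) ≤ ((p - 1) / 2 : ℕ) := by positivity
  rcases main2 (m := l) hp hL.1 hL.2.1 (RR p l) ⟨_, one_mem hL.2.1⟩ with h4 | h4
  · rw [h4, card_univ, ZMod.card] at h1R
    have : 0 ≤ 12 * δ * ((p - 1) / 2 : ℕ) := by positivity
    linarith
  · have h5 : δ * l ≤ δ * ((p - 1) / 2 : ℕ) := mul_le_mul_of_nonneg_left (by linarith) hδ
    nlinarith

theorem three_l {p l : ℕ} [NeZero l] (hp : p.Prime) (hL : Lg p) (hM : Rg p (l + 1))
    (hmax : ∀ i, Rg p i → i ≤ l + 1) (hδ : Real.log (Real.log p) / Real.log p ≤ 1 / 68)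
    (hN : 20 < (p - 1) / 2) :
    RR p l + RR p l + RR p l = univ := by
  apply add_univ
  have h2 := card_Rf hp hL
  have h3 := card_RR_l hM hmax
  have hlN : l + 1 ≤ (p - 1) / 2 := by have := hM.2.1; omega
  have hlR : (l : ℝ) + 1 ≤ ((p - 1) / 2 : ℕ) := by exact_mod_cast hlN
  have h3R : (#(Rf p) : ℝ) ≤ #(RR p l) + 1 := by exact_mod_cast h3
  have hNR : (20 : ℝ) < ((p - 1) / 2 : ℕ) := by exact_mod_cast hN
  set δ := Real.log (Real.log p) / Real.log p with hδdef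
  have hδ0 : 0 ≤ δ := by
    obtain ⟨h3, h4, h5⟩ := hL
    apply div_nonneg <;> linarith
  have hl0 : (0 : ℝ) ≤ l := by positivity
  have h6 : δ * ((p - 1) / 2 : ℕ) ≤ 1 / 68 * ((p - 1) / 2 : ℕ) :=
    mul_le_mul_of_nonneg_right hδ (by linarith)
  have h7 : δ * l ≤ 1 / 68 * ((p - 1) / 2 : ℕ) :=
    mul_le_mul hδ (by linarith) hl0 (by norm_num)
  rcases main2 (m := l) hp hL.1 hL.2.1 (RR p l) ⟨_, one_mem hL.2.1⟩ with h4 | h4
  · rw [h4, card_univ, ZMod.card]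
    have : 0 < #(RR p l) := card_pos.2 ⟨_, one_mem hL.2.1⟩
    omega
  · have : (l : ℝ) < #(RR p l + RR p l) + #(RR p l) := by nlinarith
    exact_mod_cast this

end Pool.Agent.H91RS
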