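import Mathlib
import Pool.Agent.H91RS.Int2

/-! Sums of regular indices as integers: conclusion. -/

set_option autoImplicit false

namespace Pool.Agent.H91RS

open Finset Pointwise Filter Topology

/-- sums of four, real form -/
theorem claim4' {p l : ℕ} [NeZero l] (η : ℝ) (hη : 0 < η) (hη2 : η ≤ 1 / 4)
    (h1 : Rg p 1) (hM : Rg p (l + 1)) (hmax : ∀ i, Rg p i → i ≤ l + 1)
    (hc : (#(Bad p l) : ℝ) + (1 / 2 - η) * l + 4 < #(Rf p))
    (K : ℕ) (hK1 : (3 / 2 + η) * l ≤ K) (hK2 : (K : ℝ) ≤ (5 / 2 - η) * l) : S p 4 K := by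
  apply claim4 h1 hM hmax
  rcases Nat.lt_or_ge (2 * l + 3) K with h | h
  · have e1 : 2 * l + 4 - K = 0 := by omega
    rw [e1, zero_add]
    have e2 : ((K - 2 * l - 3 : ℕ) : ℝ) = K - 2 * l - 3 := by
      rw [Nat.cast_sub (by omega), Nat.cast_sub (by omega)]; push_cast; ring
    have : ((K - 2 * l - 3 : ℕ) : ℝ) + #(Bad p l) < #(Rf p) := by rw [e2]; linarith
    exact_mod_cast this
  · have e1 : K - 2 * l - 3 = 0 := by omega
    rw [e1, add_zero]
    have e2 : ((2 * l + 4 - K : ℕ) : ℝ) = 2 * l + 4 - K := by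
      rw [Nat.cast_sub (by omega)]; push_cast; ring
    have : ((2 * l + 4 - K : ℕ) : ℝ) + #(Bad p l) < #(Rf p) := by rw [e2]; linarith
    exact_mod_cast this

/-- sums of `4 + j` -/
theorem claimn {p l : ℕ} [NeZero l] (η : ℝ) (hη : 0 < η) (hη2 : η ≤ 1 / 4)
    (h1 : Rg p 1) (hM : Rg p (l + 1)) (hmax : ∀ i, Rg p i → i ≤ l + 1)
    (hc : (#(Bad p l) : ℝ) + (1 / 2 - η) * l + 4 < #(Rf p))
    (h3 : RR p l + RR p l + RR p l = univ) (hl : 16 ≤ l) (j : ℕ) :
    ∀ K : ℕ, (3 / 2 + η) * l + j ≤ K → (K : ℝ) ≤ (j + 5 / 2 - η) * l + j → S p (4 + j) K := by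
  have hlR : (16 : ℝ) ≤ l := by exact_mod_cast hl
  induction j with
  | zero =>
    intro K hK1 hK2
    push_cast at hK1 hK2
    exact claim4' η hη hη2 h1 hM hmax hc K (by linarith) (by linarith)
  | succ j ih =>
    intro K hK1 hK2
    push_cast at hK1 hK2
    have hj0 : (0 : ℝ) ≤ j := by positivity
    have hKpos : 1 ≤ K := by
      have : (1 : ℝ) ≤ K := by nlinarith
      exact_mod_cast this
    by_cases hA : (K : ℝ) ≤ (j + 5 / 2 - η) * l + j + 1
    · have e : ((K - 1 : ℕ) : ℝ) = K - 1 := by rw [Nat.cast_sub hKpos]; push_cast; ring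
      have h4 := (ih (K - 1) (by rw [e]; linarith) (by rw [e]; linarith)).add (S.one h1)
      have e2 : K - 1 + 1 = K := by omega
      rwa [e2] at h4
    · push Not at hA
      by_cases hB : (5 / 2 + η) * l + j + 1 ≤ K
      · have hKl : l + 1 ≤ K := by
          have : ((l + 1 : ℕ) : ℝ) ≤ K := by push_cast; nlinarith
          exact_mod_cast this
        have e : ((K - (l + 1) : ℕ) : ℝ) = K - (l + 1) := by
          rw [Nat.cast_sub hKl]; push_cast; ring
        have h4 := (ih (K - (l + 1)) (by rw [e]; linarith) (by rw [e]; linarith)).add (S.one hM)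
        have e2 : K - (l + 1) + (l + 1) = K := by omega
        rwa [e2] at h4
      · push Not at hB
        have hj : j = 0 := by
          by_contra hj
          have hj1 : (1 : ℝ) ≤ j := by exact_mod_cast Nat.pos_of_ne_zero hj
          nlinarith
        subst hj
        push_cast at hA hB
        have h5 : 2 * l + 5 ≤ K := by
          have : ((2 * l + 5 : ℕ) : ℝ) ≤ K := by push_cast; nlinarith
          exact_mod_cast this
        have h6 : K ≤ 3 * l + 5 := by
          have : (K : ℝ) ≤ ((3 * l + 5 : ℕ) : ℝ) := by push_cast; nlinarith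
          exact_mod_cast this
        exact claim5 h1 hM hmax K h5 h6 h3

/-- The theorem on integers. -/
theorem ints (ε : ℝ) (hε : 0 < ε) : ∃ P : ℕ, ∀ p : ℕ, P ≤ p → p.Prime → ∃ M : ℕ, Rg p M ∧
    (∀ i, Rg p i → i ≤ M) ∧ (p : ℝ) / 2 - √(p : ℝ) ≤ M ∧
    (∀ n K : ℕ, 4 ≤ n → n + (3 / 4 + ε) * p ≤ K → K + (3 / 4 + ε) * p ≤ (n * M : ℕ) → S p n K) ∧
    ∀ E : Finset ℕ, (∀ K ∈ E, (p : ℝ) / 2 ≤ K ∧ K ≤ p ∧ ¬ S p 3 K) → (#E : ℝ) ≤ ε * p := by
  classical
  set η := min ε (1 / 4) with hηdef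
  have hη : 0 < η := lt_min hε (by norm_num)
  have hη2 : η ≤ 1 / 4 := min_le_right _ _
  have hηε : η ≤ ε := min_le_left _ _
  obtain ⟨P, hP⟩ := large2 η hη
  refine ⟨P, fun p hpP hp => ?_⟩
  obtain ⟨hL, hδ, hs⟩ := hP p hpP
  have h8η : 0 < 8 / η := by positivity
  obtain ⟨l, hl0, hM, hmax, hMp⟩ := exists_M hp (by linarith)
  have : NeZero l := ⟨hl0.ne'⟩
  have h1 : Rg p 1 := by
    obtain ⟨i, hi, -⟩ := mem_RR.1 (one_mem (p := p) (h := 1) hL.2.1)
    refine ⟨le_rfl, by have := hL.2.1; omega, ?_⟩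
    rw [show 2 * 1 = 2 from rfl, bernoulli_two, show ((6⁻¹ : ℚ)).num = 1 by norm_num]
    intro h
    have := Int.le_of_dvd (by norm_num) h
    have := hL.2.1
    omega
  have hBad := card_Bad2 hp hL hM hmax
  have hRf := card_Rf hp hL
  set δ := Real.log (Real.log p) / Real.log p with hδdef
  have hδ0 : 0 ≤ δ := by
    obtain ⟨h3, h4, h5⟩ := hL
    apply div_nonneg <;> linarith
  have hsq := Real.mul_self_sqrt (Nat.cast_nonneg (α := ℝ) p)
  set s := √(p : ℝ) with hsdef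
  have hp100 : 100 * s ≤ p := by nlinarith
  have hpη : 8 / η * s ≤ p := by nlinarith
  have hpη2 : 8 * s ≤ η * p := by
    have h2 := mul_le_mul_of_nonneg_left hpη hη.le
    have e : η * (8 / η * s) = 8 * s := by field_simp
    linarith
  have hodd : p % 2 = 1 := by
    rcases hp.eq_two_or_odd with h | h
    · have := hL.2.1; omega
    · exact h
  have hN2 : 2 * ((p - 1) / 2) + 1 = p := by omega
  have hN2R : 2 * (((p - 1) / 2 : ℕ) : ℝ) + 1 = p := by exact_mod_cast hN2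
  have hlN : l + 2 ≤ (p - 1) / 2 + 1 := by have := hM.2.1; omega
  have hlR : (l : ℝ) + 2 ≤ ((p - 1) / 2 : ℕ) + 1 := by exact_mod_cast hlN
  set N : ℝ := (((p - 1) / 2 : ℕ) : ℝ) with hNdef
  have hMp' : (p : ℝ) / 2 - s ≤ l + 1 := by push_cast at hMp; exact hMp
  have hN0 : 0 ≤ N := by rw [hNdef]; positivity
  have hδN : δ * N ≤ η / 34 * N := mul_le_mul_of_nonneg_right hδ hN0
  have hl0R : (0 : ℝ) ≤ l := by positivity
  have hN20 : 20 < (p - 1) / 2 := by
    have : (20 : ℝ) < (((p - 1) / 2 : ℕ) : ℝ) := by rw [← hNdef]; linarith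
    exact_mod_cast this
  have hl16 : 16 ≤ l := by
    have : (16 : ℝ) ≤ l := by linarith
    exact_mod_cast this
  have h3l := three_l hp hL hM hmax (by rw [← hδdef]; linarith) hN20
  have hηN : 100 ≤ η * N := by nlinarith
  have hc : (#(Bad p l) : ℝ) + (1 / 2 - η) * l + 4 < #(Rf p) := by
    have h2 : (1 / 2 - η) * l ≤ (1 / 2 - η) * N := by
      apply mul_le_mul_of_nonneg_left (by linarith) (by linarith)
    nlinarith
  refine ⟨l + 1, hM, hmax, hMp, ?_, ?_⟩
  · intro n K hn hK1 hK2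
    obtain ⟨j, rfl⟩ : ∃ j, n = 4 + j := ⟨n - 4, by omega⟩
    push_cast at hK1 hK2
    have hlp : (l : ℝ) ≤ p / 2 := by linarith
    have hηl : (3 / 2 + η) * l ≤ (3 / 4 + η / 2) * p := by nlinarith
    have hηp : η / 2 * p ≤ ε / 2 * p := by
      apply mul_le_mul_of_nonneg_right (by linarith) (by positivity)
    have h4 : 4 ≤ ε / 2 * p := by nlinarith
    apply claimn η hη hη2 h1 hM hmax hc h3l hl16 j K
    · linarith
    · nlinarith
  · intro E hE
    have h2 : E ⊆ Bad p l ∪ Icc (2 * l + 3) p := by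
      intro K hK
      obtain ⟨hK1, hK2, hK3⟩ := hE K hK
      have hK4 : l + 3 ≤ K := by
        have h5 : 2 * l + 3 ≤ p := by omega
        have h6 : p ≤ 2 * K := by
          have : (p : ℝ) ≤ ((2 * K : ℕ) : ℝ) := by push_cast; linarith
          exact_mod_cast this
        have := hM.2.1
        omega
      by_cases h7 : K ≤ 2 * l + 2
      · apply mem_union_left
        refine mem_filter.2 ⟨mem_Icc.2 ⟨hK4, h7⟩, fun h8 => hK3 (claim3 h1 hM hmax K hK4 h7 h8)⟩
      · exact mem_union_right _ (mem_Icc.2 ⟨by omega, hK2⟩)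
    have h3 := (card_le_card h2).trans (card_union_le _ _)
    rw [Nat.card_Icc] at h3
    have h4 : (#E : ℝ) ≤ #(Bad p l) + ((p + 1 - (2 * l + 3) : ℕ) : ℝ) := by exact_mod_cast h3
    have h5 : ((p + 1 - (2 * l + 3) : ℕ) : ℝ) ≤ 2 * s := by
      have h6 : p + 1 - (2 * l + 3) ≤ p - 2 * l - 2 := by omega
      have h7 : ((p + 1 - (2 * l + 3) : ℕ) : ℝ) = p - 2 * l - 2 := by
        rw [Nat.cast_sub (by omega)]; push_cast; ring
      rw [h7]; linarith
    have hηp : η * p ≤ ε * p := mul_le_mul_of_nonneg_right hηε (by positivity)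
    nlinarith

end Pool.Agent.H91RS
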