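import Mathlib
import Pool.Agent.H91RS.Int3

/-! Sums of regular indices as integers: small integers. -/

set_option autoImplicit false

namespace Pool.Agent.H91RS

open Finset Pointwise Filter Topology

theorem S.ones {p : ℕ} (h : Rg p 1) (u : ℕ) : S p u u :=
  ⟨Multiset.replicate u 1, by simp, fun i hi => by rw [Multiset.eq_of_mem_replicate hi]; exact h,
    by simp⟩

theorem pow_big (p : ℕ) : p < 6 ^ 2 ^ (Nat.sqrt p) := by
  set x := Nat.sqrt p with hx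
  have h1 : p < (x + 1) * (x + 1) := Nat.lt_succ_sqrt p
  have h2 : x + 1 ≤ 2 ^ x := Nat.lt_two_pow_self
  have h3 : x + 1 < 2 ^ (x + 1) := Nat.lt_two_pow_self
  calc p < (x + 1) * (x + 1) := h1
    _ ≤ 2 ^ (x + 1) * 2 ^ (x + 1) := Nat.mul_le_mul h3.le h3.le
    _ = 4 ^ (x + 1) := by rw [← mul_pow]; norm_num
    _ ≤ 6 ^ (x + 1) := Nat.pow_le_pow_left (by norm_num) _
    _ ≤ 6 ^ 2 ^ x := Nat.pow_le_pow_right (by norm_num) h2

theorem small {p : ℕ} (hp : p.Prime) (hs : 100 ≤ √(p : ℝ)) (h1 : Rg p 1) (s n K : ℕ)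
    (hps : p < 6 ^ 2 ^ s) (hsn : s + 2 ≤ n) (hnK : n ≤ K) (hK : (K : ℝ) < n + 13 / 16 * p) :
    S p n K := by
  have hsq := Real.mul_self_sqrt (Nat.cast_nonneg (α := ℝ) p)
  obtain ⟨s', hs'1, hs'2, hs'3⟩ : ∃ s', p < 6 ^ 2 ^ s' ∧ s' + 2 ≤ n ∧ (s' : ℝ) ≤ √(p : ℝ) := by
    by_cases h : s ≤ Nat.sqrt p
    · exact ⟨s, hps, hsn, le_trans (by exact_mod_cast h) Real.nat_sqrt_le_real_sqrt⟩
    · exact ⟨Nat.sqrt p, pow_big p, by omega, Real.nat_sqrt_le_real_sqrt⟩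
  have h100 : 100 * √(p : ℝ) ≤ p := by nlinarith
  obtain ⟨u, rfl⟩ : ∃ u, n = s' + 2 + u := ⟨n - (s' + 2), by omega⟩
  obtain ⟨K', rfl⟩ : ∃ K', K = K' + u := ⟨K - u, by omega⟩
  push_cast at hK
  have hK' : (K' : ℝ) < s' + 2 + 13 / 16 * p := by linarith
  suffices h : S p (s' + 2) K' from h.add (S.ones h1 u)
  by_cases hB : 2 * K' + 3 ≤ p
  · exact Pool.Agent.H17Reg.basis p hp s' K' (s' + 2) (by omega) hB (by omega) (by omega) (by omega)
  · have hB' : p < 2 * K' + 3 := by omega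
    have hBR : (p : ℝ) < 2 * K' + 3 := by exact_mod_cast hB'
    have hk2 : 2 ≤ K' / 2 := by
      have : (4 : ℝ) ≤ K' := by linarith
      have : 4 ≤ K' := by exact_mod_cast this
      omega
    have hkp : 2 * (K' / 2) + 3 ≤ p := by
      have h2 : ((K' + 3 : ℕ) : ℝ) ≤ p := by push_cast; linarith
      have h3 : K' + 3 ≤ p := by exact_mod_cast h2
      omega
    obtain ⟨m, t, hm, ht1, ht2, hmt⟩ := Pool.Agent.H17Reg.near p hp (K' / 2) hk2 hkp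
    have htR : (t : ℝ) ≤ √(p : ℝ) := by
      apply Real.le_sqrt_of_sq_le
      have h2 : t * t ≤ p := by omega
      have h3 : (t : ℝ) * t ≤ p := by exact_mod_cast h2
      rw [sq]; exact h3
    obtain ⟨K3, hK3⟩ : ∃ K3, K' = K3 + m := ⟨K' - m, by omega⟩
    have h5 : 2 * K3 + 3 ≤ p := by
      have h6 : 2 * K3 + 3 ≤ K' + 2 * t + 4 := by omega
      have h7 : ((K' + 2 * t + 4 : ℕ) : ℝ) ≤ p := by push_cast; linarith
      have h8 : K' + 2 * t + 4 ≤ p := by exact_mod_cast h7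
      omega
    have h6 : s' + 1 ≤ K3 := by
      have h7 : K' ≤ 2 * K3 := by omega
      have h8 : ((2 * (s' + 1) : ℕ) : ℝ) ≤ K' := by push_cast; linarith
      have h9 : 2 * (s' + 1) ≤ K' := by exact_mod_cast h8
      omega
    have h7 : S p (s' + 1) K3 :=
      Pool.Agent.H17Reg.basis p hp s' K3 (s' + 1) (by omega) h5 (by omega) le_rfl h6
    have h8 := h7.add (S.one hm)
    rw [hK3]
    exact h8

/-- The theorem on integers, with the small integers. -/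
theorem ints2 (ε : ℝ) (hε : 0 < ε) : ∃ P : ℕ, ∀ p : ℕ, P ≤ p → p.Prime → ∃ M : ℕ, Rg p M ∧
    (∀ i, Rg p i → i ≤ M) ∧ (p : ℝ) / 2 - √(p : ℝ) ≤ M ∧
    (∀ n K : ℕ, 4 ≤ n → n + (3 / 4 + ε) * p ≤ K → K + (3 / 4 + ε) * p ≤ (n * M : ℕ) → S p n K) ∧
    (∀ s n K : ℕ, p < 6 ^ 2 ^ s → 4 ≤ n → s + 2 ≤ n → n ≤ K →
      K + (3 / 4 + ε) * p ≤ (n * M : ℕ) → S p n K) ∧
    ∀ E : Finset ℕ, (∀ K ∈ E, (p : ℝ) / 2 ≤ K ∧ K ≤ p ∧ ¬ S p 3 K) → (#E : ℝ) ≤ ε * p := by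
  set η := min ε (1 / 16) with hηdef
  have hη : 0 < η := lt_min hε (by norm_num)
  have hη2 : η ≤ 1 / 16 := min_le_right _ _
  have hηε : η ≤ ε := min_le_left _ _
  obtain ⟨P, hP⟩ := ints η hη
  obtain ⟨P', hP'⟩ := large2 η hη
  refine ⟨max P P', fun p hpP hp => ?_⟩
  obtain ⟨M, hM1, hM2, hM3, hM4, hM5⟩ := hP p ((le_max_left _ _).trans hpP) hp
  obtain ⟨hL, -, hs⟩ := hP' p ((le_max_right _ _).trans hpP)
  have h8η : 0 < 8 / η := by positivity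
  have hp0 : (0 : ℝ) ≤ p := by positivity
  have h3 : η * p ≤ ε * p := mul_le_mul_of_nonneg_right hηε hp0
  have h3' : η * p ≤ 1 / 16 * p := mul_le_mul_of_nonneg_right hη2 hp0
  have h1 : Rg p 1 := by
    refine ⟨le_rfl, by have := hL.2.1; omega, ?_⟩
    rw [show 2 * 1 = 2 from rfl, bernoulli_two, show ((6⁻¹ : ℚ)).num = 1 by norm_num]
    intro h
    have := Int.le_of_dvd (by norm_num) h
    have := hL.2.1
    omega
  have hmain : ∀ n K : ℕ, 4 ≤ n → n + (3 / 4 + η) * p ≤ K →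
      K + (3 / 4 + ε) * p ≤ (n * M : ℕ) → S p n K := fun n K hn hK1 hK2 =>
    hM4 n K hn hK1 (by linarith)
  refine ⟨M, hM1, hM2, hM3, fun n K hn hK1 hK2 => hmain n K hn (by linarith) hK2, ?_,
    fun E hE => (hM5 E hE).trans h3⟩
  intro s n K hps hn hsn hnK hK
  by_cases hc : n + (3 / 4 + η) * p ≤ K
  · exact hmain n K hn hc hK
  · push Not at hc
    exact small hp (by linarith) h1 s n K hps hsn hnK (by linarith)

end Pool.Agent.H91RS
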