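import Mathlib
import Pool.Agent.H91RS.Int4

/-! Sums of regular indices as integers, from the bound for the index of irregularity. -/

set_option autoImplicit false

namespace Pool.Agent.H91RS

open Finset Pointwise Filter Topology

theorem refl_pair (F : Finset ℕ) (a b K : ℕ) (hab : a + b = K + 1) (hF : F ⊆ Ico a b)
    (hc : b - a < 2 * #F) : ∃ i ∈ F, ∃ j ∈ F, i + j = K := by
  classical
  have hinj : #(F.image fun i => K - i) = #F := by
    apply card_image_of_injOn
    intro x hx y hy hxy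
    have hx' := mem_Ico.1 (hF (mem_coe.1 hx))
    have hy' := mem_Ico.1 (hF (mem_coe.1 hy))
    simp only at hxy
    omega
  have hsub : (F.image fun i => K - i) ⊆ Ico a b := by
    intro x hx
    obtain ⟨i, hi, rfl⟩ := mem_image.1 hx
    have hi' := mem_Ico.1 (hF hi)
    exact mem_Ico.2 ⟨by omega, by omega⟩
  have hnd : ¬ Disjoint F (F.image fun i => K - i) := by
    intro hd
    have h1 := card_union_of_disjoint hd
    have h2 := card_le_card (union_subset hF hsub)
    rw [Nat.card_Ico] at h2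
    omega
  obtain ⟨x, hx1, hx2⟩ := Finset.not_disjoint_iff.1 hnd
  obtain ⟨i, hi, rfl⟩ := mem_image.1 hx2
  have hi' := mem_Ico.1 (hF hi)
  exact ⟨K - i, hx1, i, hi, by omega⟩

/-- the window of the sums of two -/
theorem win2 {p N : ℕ} (hN : p = 2 * N + 1) (K : ℕ) (hK1 : 2 * N ≤ K + 2 * #(Rf p))
    (hK2 : K ≤ 2 * #(Rf p)) (hK0 : 0 < K) : S p 2 K := by
  classical
  have hRN : ∀ i ∈ Rf p, 1 ≤ i ∧ i < N := fun i hi => by
    have := mem_Rf.1 hi
    exact ⟨this.1, by have := this.2.1; omega⟩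
  rcases Nat.lt_or_ge N K with h | h
  · set F := (Rf p).filter fun i => K < i + N with hF
    have h1 : Rf p ⊆ F ∪ Ico 1 (K - N + 1) := by
      intro i hi
      have := hRN i hi
      by_cases h2 : K < i + N
      · exact mem_union_left _ (mem_filter.2 ⟨hi, h2⟩)
      · exact mem_union_right _ (mem_Ico.2 ⟨this.1, by omega⟩)
    have h2 := (card_le_card h1).trans (card_union_le _ _)
    rw [Nat.card_Ico] at h2
    have hKN : K < 2 * N := by
      by_contra hcon
      have h3 : #(Rf p) ≤ #(Ico 1 N) := card_le_card fun i hi => mem_Ico.2 (hRN i hi)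
      rw [Nat.card_Ico] at h3
      omega
    obtain ⟨i, hi, j, hj, hij⟩ := refl_pair F (K - N + 1) N K (by omega)
      (fun i hi => by
        obtain ⟨h3, h4⟩ := mem_filter.1 hi
        have := hRN i h3
        exact mem_Ico.2 ⟨by omega, this.2⟩) (by omega)
    rw [← hij]
    exact S.two (mem_Rf.1 (mem_filter.1 hi).1) (mem_Rf.1 (mem_filter.1 hj).1)
  · set F := (Rf p).filter fun i => i < K with hF
    have h1 : Rf p ⊆ F ∪ Ico K N := by
      intro i hi
      have := hRN i hi
      by_cases h2 : i < K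
      · exact mem_union_left _ (mem_filter.2 ⟨hi, h2⟩)
      · exact mem_union_right _ (mem_Ico.2 ⟨by omega, this.2⟩)
    have h2 := (card_le_card h1).trans (card_union_le _ _)
    rw [Nat.card_Ico] at h2
    obtain ⟨i, hi, j, hj, hij⟩ := refl_pair F 1 K K (by omega)
      (fun i hi => by
        obtain ⟨h3, h4⟩ := mem_filter.1 hi
        have := hRN i h3
        exact mem_Ico.2 ⟨this.1, h4⟩) (by omega)
    rw [← hij]
    exact S.two (mem_Rf.1 (mem_filter.1 hi).1) (mem_Rf.1 (mem_filter.1 hj).1)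

/-- the window of the sums of `2 + j` -/
theorem winn {p M α β : ℕ} (hp : p.Prime) (h1 : Rg p 1) (hM : Rg p M)
    (hw : ∀ K, α ≤ K → K ≤ β → S p 2 K) (hgap : ∀ t : ℕ, t * t ≤ p → t ≤ β - α) (j : ℕ) :
    ∀ K, α + j ≤ K → K ≤ β + j * M → S p (2 + j) K := by
  have hp1 := hp.one_lt
  have hαβ : α < β := by have := hgap 1 (by omega); omega
  have hM1 := hM.1
  induction j with
  | zero =>
    intro K hK1 hK2
    exact hw K (by omega) (by omega)
  | succ j ih =>
    intro K hK1 hK2
    have e : (j + 1) * M = j * M + M := by ring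
    rw [e] at hK2
    have hjM : j ≤ j * M := Nat.le_mul_of_pos_right j hM1
    by_cases hA : K ≤ β + j * M + 1
    · have h4 := (ih (K - 1) (by omega) (by omega)).add (S.one h1)
      have e2 : K - 1 + 1 = K := by omega
      rwa [e2] at h4
    · by_cases hB : α + j + M ≤ K
      · have h4 := (ih (K - M) (by omega) (by omega)).add (S.one hM)
        have e2 : K - M + M = K := by omega
        rwa [e2] at h4
      · have hk : 2 ≤ K - (α + j) := by omega
        obtain ⟨m, t, hm, ht1, ht2, hmt⟩ := Pool.Agent.H17Reg.near p hp (K - (α + j)) hk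
          (by have := hM.2.1; omega)
        have ht : t ≤ β - α := hgap t (by have := hM.2.1; omega)
        have h4 := (ih (K - m) (by omega) (by omega)).add (S.one hm)
        have e2 : K - m + m = K := by omega
        rwa [e2] at h4

/-- The theorem on integers, from the bound for the index of irregularity. -/
theorem ints5 {p : ℕ} (hp : p.Prime) (hp4 : 10000 ≤ p)
    (hsk : 2 * ((((p - 1) / 2 : ℕ) : ℝ) - 1 - #(Rf p)) * Real.log p ≤
      (((p - 1) / 2 : ℕ) : ℝ) * Real.log ((p - 1) / 2 : ℕ)) :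
    ∃ M : ℕ, Rg p M ∧ (∀ i, Rg p i → i ≤ M) ∧ (p : ℝ) / 2 - √(p : ℝ) ≤ M ∧
    (∀ n k : ℕ, 2 ≤ n → (1 - Real.log 2 / Real.log p) * (p / 2) + n ≤ k →
      (k : ℝ) + 3 ≤ (1 + Real.log 2 / Real.log p) * (p / 2) + (n - 2) * M → S p n k) ∧
    (∀ s n k : ℕ, p < 6 ^ 2 ^ s → s + 2 ≤ n → n ≤ k →
      (k : ℝ) + 3 ≤ (1 + Real.log 2 / Real.log p) * (p / 2) + (n - 2) * M → S p n k) := by
  have hp4R : (10000 : ℝ) ≤ p := by exact_mod_cast hp4
  have hsq := Real.mul_self_sqrt (Nat.cast_nonneg (α := ℝ) p)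
  have hs0 : 0 ≤ √(p : ℝ) := Real.sqrt_nonneg _
  have hs100 : 100 ≤ √(p : ℝ) := by
    apply Real.le_sqrt_of_sq_le; linarith
  obtain ⟨l, hl0, hM, hmax, hMp⟩ := exists_M hp hs100
  have h1 : Rg p 1 := by
    refine ⟨le_rfl, by omega, ?_⟩
    rw [show 2 * 1 = 2 from rfl, bernoulli_two, show ((6⁻¹ : ℚ)).num = 1 by norm_num]
    intro h
    have := Int.le_of_dvd (by norm_num) h
    omega
  have hodd : p % 2 = 1 := by
    rcases hp.eq_two_or_odd with h | h
    · omega
    · exact h
  set N := (p - 1) / 2 with hNdef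
  have hN : p = 2 * N + 1 := by omega
  have hNR : (p : ℝ) = 2 * N + 1 := by exact_mod_cast hN
  have hL0 : 0 < Real.log p := Real.log_pos (by linarith)
  set L := Real.log p with hL
  set lam2 := Real.log 2 / L with hlam
  have h2pos : 0 < Real.log 2 := Real.log_pos (by norm_num)
  have hlam0 : 0 < lam2 := div_pos h2pos hL0
  have hlamL : lam2 * L = Real.log 2 := by rw [hlam]; field_simp
  have hlam1 : lam2 ≤ 1 := by
    rw [hlam, div_le_one hL0]
    exact Real.log_le_log (by norm_num) (by linarith)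
  have hNpos : (0 : ℝ) < N := by linarith
  have hlogN : Real.log N ≤ L - Real.log 2 := by
    have h3 : Real.log ((N : ℝ) * 2) ≤ L := Real.log_le_log (by positivity) (by linarith)
    rw [Real.log_mul hNpos.ne' (by norm_num)] at h3
    linarith
  -- the number of the regular indices
  have hr : (N : ℝ) * (1 + lam2) - 2 ≤ 2 * #(Rf p) := by
    have h3 : (N : ℝ) * Real.log N ≤ N * (L - lam2 * L) := by
      rw [hlamL]; exact mul_le_mul_of_nonneg_left hlogN hNpos.le
    have h4 : (2 * ((N : ℝ) - 1 - #(Rf p)) - N * (1 - lam2)) * L ≤ 0 := by nlinarith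
    have h5 : 2 * ((N : ℝ) - 1 - #(Rf p)) - N * (1 - lam2) ≤ 0 := by
      by_contra hcon
      push Not at hcon
      have := mul_pos hcon hL0
      linarith
    linarith
  -- the gap condition
  have hgapR : √(p : ℝ) ≤ 2 * (N * lam2) - 4 := by
    set q := √(√(p : ℝ)) with hq
    have hq2 : q * q = √(p : ℝ) := Real.mul_self_sqrt hs0
    have hq0 : 0 ≤ q := Real.sqrt_nonneg _
    have hq10 : 10 ≤ q := by
      apply Real.le_sqrt_of_sq_le; linarith
    have hp' : (p : ℝ) = q * q * (q * q) := by rw [hq2]; exact hsq.symm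
    have hLq : L ≤ 4 * q := by
      have h3 : L = 4 * Real.log q := by
        rw [hL, hp', Real.log_mul (by positivity) (by positivity),
          Real.log_mul (by positivity) (by positivity)]
        ring
      have h4 := Real.log_le_sub_one_of_pos (by linarith : 0 < q)
      linarith
    have h5 : (√(p : ℝ) + 4) * L ≤ 2 * (N * lam2) * L := by
      have h6 : 2 * (N * lam2) * L = 2 * N * Real.log 2 := by rw [← hlamL]; ring
      have h7 : 0.69 < Real.log 2 := by have := Real.log_two_gt_d9; linarith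
      have h8 : 2 * (N : ℝ) = q * q * (q * q) - 1 := by linarith
      rw [h6, h8, ← hq2]
      have h9 : (q * q + 4) * L ≤ (q * q + 4) * (4 * q) :=
        mul_le_mul_of_nonneg_left hLq (by positivity)
      have h10 : (q * q * (q * q) - 1) * 0.69 ≤ (q * q * (q * q) - 1) * Real.log 2 :=
        mul_le_mul_of_nonneg_left h7.le (by nlinarith)
      have h11 : (q * q + 4) * (4 * q) ≤ (q * q * (q * q) - 1) * 0.69 := by
        have e1 : 0 ≤ q * q * q * (q - 10) := mul_nonneg (by positivity) (by linarith)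
        have e2 : 0 ≤ q * q * (q - 10) := mul_nonneg (by positivity) (by linarith)
        nlinarith
      linarith
    have := le_of_mul_le_mul_right h5 hL0
    linarith
  have hRfN : #(Rf p) ≤ N - 1 := by
    have h3 : #(Rf p) ≤ #(Ico 1 N) := card_le_card fun i hi => by
      have := mem_Rf.1 hi
      exact mem_Ico.2 ⟨this.1, by have := this.2.1; omega⟩
    rwa [Nat.card_Ico] at h3
  have hw : ∀ K, 2 * N - 2 * #(Rf p) ≤ K → K ≤ 2 * #(Rf p) → S p 2 K := by
    intro K hK1 hK2
    exact win2 hN K (by omega) hK2 (by omega)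
  have hgap : ∀ t : ℕ, t * t ≤ p → t ≤ 2 * #(Rf p) - (2 * N - 2 * #(Rf p)) := by
    intro t ht
    have htR : (t : ℝ) ≤ √(p : ℝ) := by
      apply Real.le_sqrt_of_sq_le
      have h3 : (t : ℝ) * t ≤ p := by exact_mod_cast ht
      rw [sq]; exact h3
    have h4 : (t : ℝ) + 2 * N ≤ 4 * #(Rf p) := by nlinarith
    have h5 : t + 2 * N ≤ 4 * #(Rf p) := by exact_mod_cast h4
    omega
  have hlN : l + 2 ≤ N := by have := hM.2.1; omega
  have hmain : ∀ n k : ℕ, 2 ≤ n → (1 - lam2) * (p / 2) + n ≤ k →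
      (k : ℝ) + 3 ≤ (1 + lam2) * (p / 2) + (n - 2) * ((l + 1 : ℕ) : ℝ) → S p n k := by
    intro n k hn hk1 hk2
    obtain ⟨j, rfl⟩ : ∃ j, n = 2 + j := ⟨n - 2, by omega⟩
    apply winn hp h1 hM hw hgap j k
    · have h3 : ((2 * N + j : ℕ) : ℝ) ≤ ((k + 2 * #(Rf p) : ℕ) : ℝ) := by
        push_cast
        push_cast at hk1
        nlinarith
      have h4 : 2 * N + j ≤ k + 2 * #(Rf p) := by exact_mod_cast h3
      have h5 : (j : ℝ) ≤ k := by
        push_cast at hk1
        nlinarith
      have h6 : j ≤ k := by exact_mod_cast h5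
      omega
    · have h3 : (k : ℝ) ≤ ((2 * #(Rf p) + j * (l + 1) : ℕ) : ℝ) := by
        push_cast
        push_cast at hk2
        nlinarith
      exact_mod_cast h3
  refine ⟨l + 1, hM, hmax, hMp, hmain, ?_⟩
  intro s n k hps hsn hnk hk
  by_cases hc : (1 - lam2) * (p / 2) + n ≤ k
  · exact hmain n k (by omega) hc hk
  · push Not at hc
    refine small hp hs100 h1 s n k hps hsn hnk ?_
    nlinarith

end Pool.Agent.H91RS
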