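import Mathlib
import Pool.Agent.H91RS.Int5

/-! The bound for the index of irregularity, in the form used in `Int5`. -/

set_option autoImplicit false

namespace Pool.Agent.H91RS

open Finset

theorem sk_form {p : ℕ} (hp : p.Prime) (hp4 : 10000 ≤ p)
    (h : p ^ (2 * ((Finset.Icc 1 ((p - 3) / 2)).filter
      (fun i => (p : ℤ) ∣ (bernoulli (2 * i)).num)).card) ≤ ((p - 1) / 2) ^ ((p - 1) / 2)) :
    2 * ((((p - 1) / 2 : ℕ) : ℝ) - 1 - #(Rf p)) * Real.log p ≤
      (((p - 1) / 2 : ℕ) : ℝ) * Real.log ((p - 1) / 2 : ℕ) := by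
  classical
  set I := (Finset.Icc 1 ((p - 3) / 2)).filter (fun i => (p : ℤ) ∣ (bernoulli (2 * i)).num) with hI
  have hN0 : 0 < (p - 1) / 2 := by omega
  have h1 : (p - 3) / 2 ≤ #I + #(Rf p) := by
    have h2 : Icc 1 ((p - 3) / 2) ⊆ I ∪ Rf p := by
      intro i hi
      by_cases h3 : (p : ℤ) ∣ (bernoulli (2 * i)).num
      · exact mem_union_left _ (mem_filter.2 ⟨hi, h3⟩)
      · refine mem_union_right _ (mem_Rf.2 ⟨(mem_Icc.1 hi).1, ?_, h3⟩)
        have := (mem_Icc.1 hi).2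
        omega
    have h3 := (card_le_card h2).trans (card_union_le _ _)
    rw [Nat.card_Icc] at h3
    omega
  have h2 : (p - 1) / 2 ≤ #I + #(Rf p) + 1 := by omega
  have h2R : (((p - 1) / 2 : ℕ) : ℝ) ≤ #I + #(Rf p) + 1 := by exact_mod_cast h2
  have h3 : (p : ℝ) ^ (2 * #I) ≤ (((p - 1) / 2 : ℕ) : ℝ) ^ ((p - 1) / 2) := by exact_mod_cast h
  have hp0 : (0 : ℝ) < p := by exact_mod_cast hp.pos
  have h4 := Real.log_le_log (by positivity) h3
  rw [Real.log_pow, Real.log_pow] at h4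
  push_cast at h4
  have h5 : 0 < Real.log p := Real.log_pos (by exact_mod_cast hp.one_lt)
  have h6 : 2 * ((((p - 1) / 2 : ℕ) : ℝ) - 1 - #(Rf p)) * Real.log p ≤ 2 * #I * Real.log p := by
    apply mul_le_mul_of_nonneg_right _ h5.le
    linarith
  push_cast at h6 ⊢
  linarith

end Pool.Agent.H91RS
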