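import Mathlib
import Pool.Agent.H17Reg.Skula
import Pool.Agent.H17Reg.TwoOrThree
import Pool.Agent.H91RS.Int6

/-! Sums of regular indices as integers: almost all primes. -/

set_option autoImplicit false

namespace Pool.Agent.H91RS

open Finset Pointwise Filter Topology

theorem almost_one {p : ℕ} (hp : p.Prime) (hp4 : 10000 ≤ p)
    (h3 : ∀ k : ℕ, 3 ≤ k → 2 * k + 3 ≤ p → S p 3 k) :
    ∃ M : ℕ, Rg p M ∧ (∀ i, Rg p i → i ≤ M) ∧
    (∀ n k : ℕ, 3 ≤ n → n ≤ k →
      (k : ℝ) + 3 ≤ (1 + Real.log 2 / Real.log p) * (p / 2) + (n - 2) * M → S p n k) := by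
  obtain ⟨M, hM, hmax, -, hmain, -⟩ := ints5 hp hp4 (sk_form hp hp4
    (Pool.Agent.H17Reg.Sk.skula p hp (by omega)))
  refine ⟨M, hM, hmax, fun n k hn hnk hk => ?_⟩
  by_cases hc : (1 - Real.log 2 / Real.log p) * (p / 2) + n ≤ k
  · exact hmain n k (by omega) hc hk
  · push Not at hc
    have h1 : Rg p 1 := by
      refine ⟨le_rfl, by omega, ?_⟩
      rw [show 2 * 1 = 2 from rfl, bernoulli_two, show ((6⁻¹ : ℚ)).num = 1 by norm_num]
      intro h
      have := Int.le_of_dvd (by norm_num) h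
      omega
    obtain ⟨u, rfl⟩ : ∃ u, n = 3 + u := ⟨n - 3, by omega⟩
    obtain ⟨k', rfl⟩ : ∃ k', k = k' + u := ⟨k - u, by omega⟩
    suffices h : S p 3 k' from h.add (S.ones h1 u)
    apply h3 k' (by omega)
    by_contra hcon
    have hodd : p % 2 = 1 := by
      rcases hp.eq_two_or_odd with h | h
      · omega
      · exact h
    have h4 : p ≤ 2 * k' + 1 := by omega
    have h4R : (p : ℝ) ≤ 2 * k' + 1 := by exact_mod_cast h4
    push_cast at hc
    have hp4R : (10000 : ℝ) ≤ p := by exact_mod_cast hp4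
    have hL0 : 0 < Real.log p := Real.log_pos (by linarith)
    have h5 : 8 ≤ Real.log 2 / Real.log p * p := by
      have h6 : Real.log p ≤ 4 * √(√(p : ℝ)) := by
        have hs0 : 0 ≤ √(p : ℝ) := Real.sqrt_nonneg _
        have hsq := Real.mul_self_sqrt (Nat.cast_nonneg (α := ℝ) p)
        have hq2 : √(√(p : ℝ)) * √(√(p : ℝ)) = √(p : ℝ) := Real.mul_self_sqrt hs0
        have hq10 : 10 ≤ √(√(p : ℝ)) := by
          apply Real.le_sqrt_of_sq_le
          apply Real.le_sqrt_of_sq_le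
          linarith
        have hp' : (p : ℝ) = √(√(p : ℝ)) * √(√(p : ℝ)) * (√(√(p : ℝ)) * √(√(p : ℝ))) := by
          rw [hq2]; exact hsq.symm
        have h7 : Real.log p = 4 * Real.log (√(√(p : ℝ))) := by
          conv_lhs => rw [hp']
          rw [Real.log_mul (by positivity) (by positivity),
            Real.log_mul (by positivity) (by positivity)]
          ring
        have h8 := Real.log_le_sub_one_of_pos (by linarith : 0 < √(√(p : ℝ)))
        linarith
      have h7 : √(√(p : ℝ)) ≤ √(p : ℝ) := by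
        apply Real.sqrt_le_sqrt
        have hsq := Real.mul_self_sqrt (Nat.cast_nonneg (α := ℝ) p)
        have hs100 : 100 ≤ √(p : ℝ) := by
          apply Real.le_sqrt_of_sq_le; linarith
        nlinarith
      have hsq := Real.mul_self_sqrt (Nat.cast_nonneg (α := ℝ) p)
      have hs100 : 100 ≤ √(p : ℝ) := by
        apply Real.le_sqrt_of_sq_le; linarith
      have h8 : 0.69 < Real.log 2 := by have := Real.log_two_gt_d9; linarith
      have e : Real.log 2 / Real.log p * p = (Real.log 2 * p) / Real.log p := by ring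
      rw [e, le_div_iff₀ hL0]
      have h9 : 8 * Real.log p ≤ 32 * √(p : ℝ) := by linarith
      have h10 : 0.69 * (p : ℝ) ≤ Real.log 2 * p := mul_le_mul_of_nonneg_right h8.le (by linarith)
      nlinarith
    nlinarith

theorem almost (ψ : ℕ → ℝ) (hψ : Tendsto ψ atTop atTop) :
    Tendsto (fun X : ℕ =>
      (({p : ℕ | p ≤ X ∧ p.Prime ∧ (10000 ≤ p →
          (∀ k : ℕ, 2 ≤ k → (k : ℝ) ≤ p / (ψ p * Real.log p) → S p 2 k) ∧
          ∃ M : ℕ, Rg p M ∧ (∀ i, Rg p i → i ≤ M) ∧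
            (∀ n k : ℕ, 3 ≤ n → n ≤ k →
              (k : ℝ) + 3 ≤ (1 + Real.log 2 / Real.log p) * (p / 2) + (n - 2) * M →
              S p n k))}.ncard : ℕ) : ℝ)
        / (({p : ℕ | p ≤ X ∧ p.Prime}.ncard : ℕ) : ℝ)) atTop (𝓝 1) := by
  have h := Pool.Agent.H17Reg.TwoOrThree.result ψ hψ
  have hfin : ∀ X : ℕ, {p : ℕ | p ≤ X ∧ p.Prime}.Finite := fun X =>
    (Set.finite_Iic X).subset fun p hp => hp.1
  refine tendsto_of_tendsto_of_tendsto_of_le_of_le h tendsto_const_nhds ?_ ?_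
  · intro X
    apply div_le_div_of_nonneg_right _ (Nat.cast_nonneg _)
    have h1 : {p : ℕ | p ≤ X ∧ p.Prime ∧
          (∀ k : ℕ, 2 ≤ k → (k : ℝ) ≤ p / (ψ p * Real.log p) →
            ∃ i j, Pool.Agent.H17Reg.TwoOrThree.RegularIndex p i ∧
              Pool.Agent.H17Reg.TwoOrThree.RegularIndex p j ∧ i + j = k) ∧
          (∀ k : ℕ, 3 ≤ k → 2 * k + 3 ≤ p →
            ∃ i j l, Pool.Agent.H17Reg.TwoOrThree.RegularIndex p i ∧
              Pool.Agent.H17Reg.TwoOrThree.RegularIndex p j ∧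
              Pool.Agent.H17Reg.TwoOrThree.RegularIndex p l ∧
              i + j + l = k)} ⊆
        {p : ℕ | p ≤ X ∧ p.Prime ∧ (10000 ≤ p →
          (∀ k : ℕ, 2 ≤ k → (k : ℝ) ≤ p / (ψ p * Real.log p) → S p 2 k) ∧
          ∃ M : ℕ, Rg p M ∧ (∀ i, Rg p i → i ≤ M) ∧
            (∀ n k : ℕ, 3 ≤ n → n ≤ k →
              (k : ℝ) + 3 ≤ (1 + Real.log 2 / Real.log p) * (p / 2) + (n - 2) * M →
              S p n k))} := by
      rintro p ⟨h2, h3, h4, h5⟩
      refine ⟨h2, h3, fun hp4 => ⟨fun k hk1 hk2 => ?_, almost_one h3 hp4 fun k hk1 hk2 => ?_⟩⟩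
      · obtain ⟨i, j, hi, hj, rfl⟩ := h4 k hk1 hk2
        exact S.two hi hj
      · obtain ⟨i, j, l, hi, hj, hl, rfl⟩ := h5 k hk1 hk2
        exact S.three hi hj hl
    exact Nat.cast_le.2 (Set.ncard_le_ncard h1 ((hfin X).subset fun p hp => ⟨hp.1, hp.2.1⟩))
  · intro X
    refine div_le_one_of_le₀ (Nat.cast_le.2 (Set.ncard_le_ncard ?_ (hfin X))) (Nat.cast_nonneg _)
    intro p hp
    exact ⟨hp.1, hp.2.1⟩

end Pool.Agent.H91RS
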